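import Pool.Agent.H69.NB.Defs

namespace H69NB

open Finset

variable {V ι : Type*} [DecidableEq V] [DecidableEq ι]

/-- Every alive edge has four vertices. -/
theorem four_tot {N : ℝ} {E : Finset ι} {vs : ι → Finset V} {w : ι → ℝ} (H : Hyp N E vs w)
    (A : Finset V) : 4 * tot E vs w A = ∑ v ∈ A, deg E vs w A v := by
  unfold deg alv tot
  simp only [sum_filter]
  rw [sum_comm, mul_sum]
  apply sum_congr rfl
  intro e he
  unfold al at he
  rw [mem_filter] at he
  rw [← sum_filter, sum_const, nsmul_eq_mul]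
  have h1 : A.filter (fun v => v ∈ vs e) = vs e := by
    ext v
    rw [mem_filter]
    exact ⟨fun h => h.2, fun h => ⟨he.2 h, h⟩⟩
  rw [h1, H.card4 e he.1]
  norm_num

theorem deg_nonneg {N : ℝ} {E : Finset ι} {vs : ι → Finset V} {w : ι → ℝ} (H : Hyp N E vs w)
    (A : Finset V) (v : V) : 0 ≤ deg E vs w A v := by
  unfold deg alv al
  apply sum_nonneg
  intro e he
  rw [mem_filter, mem_filter] at he
  exact H.w0 e he.1.1

theorem deg_step {N : ℝ} {E : Finset ι} {vs : ι → Finset V} {w : ι → ℝ} (H : Hyp N E vs w)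
    (A : Finset V) (f : ι) (v : V) (hv : v ∉ vs f) :
    deg E vs w (A \ vs f) v = deg E vs w A v - bb E vs w A f v := by
  have h1 : alv E vs (A \ vs f) v = (alv E vs A v).filter (fun e => Disjoint (vs e) (vs f)) := by
    unfold alv al
    ext e
    simp only [mem_filter]
    rw [Finset.subset_sdiff]
    tauto
  unfold deg bb
  rw [h1, eq_sub_iff_add_eq]
  exact sum_filter_add_sum_filter_not _ _ _

theorem bb_nonneg {N : ℝ} {E : Finset ι} {vs : ι → Finset V} {w : ι → ℝ} (H : Hyp N E vs w)
    (A : Finset V) (f : ι) (v : V) : 0 ≤ bb E vs w A f v := by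
  unfold bb alv al
  apply sum_nonneg
  intro e he
  rw [mem_filter, mem_filter, mem_filter] at he
  exact H.w0 e he.1.1.1

theorem bb_le {N : ℝ} {E : Finset ι} {vs : ι → Finset V} {w : ι → ℝ} (H : Hyp N E vs w)
    (A : Finset V) (f : ι) (hf : f ∈ E) (v : V) (hv : v ∉ vs f) : bb E vs w A f v ≤ 96 / N := by
  have h1 : (alv E vs A v).filter (fun e => ¬ Disjoint (vs e) (vs f)) ⊆
      (vs f).biUnion (fun u => E.filter (fun e => u ∈ vs e ∧ v ∈ vs e)) := by
    intro e he
    unfold alv al at he
    rw [mem_filter, mem_filter, mem_filter] at he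
    obtain ⟨⟨⟨heE, _⟩, hve⟩, hd⟩ := he
    obtain ⟨u, hu1, hu2⟩ := Finset.not_disjoint_iff.mp hd
    rw [mem_biUnion]
    exact ⟨u, hu2, mem_filter.mpr ⟨heE, hu1, hve⟩⟩
  have h2 : ((alv E vs A v).filter (fun e => ¬ Disjoint (vs e) (vs f))).card ≤ 12 := by
    calc ((alv E vs A v).filter (fun e => ¬ Disjoint (vs e) (vs f))).card
        ≤ ((vs f).biUnion (fun u => E.filter (fun e => u ∈ vs e ∧ v ∈ vs e))).card :=
          card_le_card h1
      _ ≤ (vs f).card * 3 := by
          apply card_biUnion_le_card_mul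
          intro u hu
          apply H.codeg
          rintro rfl
          exact hv hu
      _ = 12 := by rw [H.card4 f hf]
  have hN := H.Npos
  unfold bb
  calc ∑ e ∈ (alv E vs A v).filter (fun e => ¬ Disjoint (vs e) (vs f)), w e
      ≤ ((alv E vs A v).filter (fun e => ¬ Disjoint (vs e) (vs f))).card • (8 / N) := by
        apply sum_le_card_nsmul
        intro e he
        unfold alv al at he
        rw [mem_filter, mem_filter, mem_filter] at he
        exact H.w8 e he.1.1.1
    _ ≤ 12 * (8 / N) := by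
        rw [nsmul_eq_mul]
        apply mul_le_mul_of_nonneg_right _ (by positivity)
        exact_mod_cast h2
    _ = 96 / N := by ring

/-- the alive edges not through `v` have total weight `tot - deg v` -/
theorem sum_aln {E : Finset ι} {vs : ι → Finset V} {w : ι → ℝ}
    (A : Finset V) (v : V) : ∑ f ∈ aln E vs A v, w f = tot E vs w A - deg E vs w A v := by
  unfold aln tot deg alv
  rw [eq_sub_iff_add_eq, add_comm]
  exact sum_filter_add_sum_filter_not _ _ _

end H69NB
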