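import Pool.Agent.H69.NB.Defs

namespace H69NB

open Finset

variable {V ι : Type*} [DecidableEq V] [DecidableEq ι]

theorem dbl_swap {E : Finset ι} {vs : ι → Finset V} {w : ι → ℝ} (A : Finset V) (v : V) :
    ∑ f ∈ aln E vs A v, w f * bb E vs w A f v =
      ∑ e ∈ alv E vs A v, w e *
        ∑ f ∈ (aln E vs A v).filter (fun f => ¬ Disjoint (vs e) (vs f)), w f := by
  unfold bb
  simp_rw [Finset.sum_filter, Finset.mul_sum]
  rw [Finset.sum_comm]
  refine Finset.sum_congr rfl fun e _ => Finset.sum_congr rfl fun f _ => ?_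
  split_ifs <;> ring

theorem dbl_mem_alv {E : Finset ι} {vs : ι → Finset V} {A : Finset V} {v : V} {e : ι} :
    e ∈ alv E vs A v ↔ e ∈ E ∧ vs e ⊆ A ∧ v ∈ vs e := by
  unfold alv al
  simp [Finset.mem_filter, and_assoc]

theorem dbl_mem_aln {E : Finset ι} {vs : ι → Finset V} {A : Finset V} {v : V} {e : ι} :
    e ∈ aln E vs A v ↔ e ∈ E ∧ vs e ⊆ A ∧ v ∉ vs e := by
  unfold aln al
  simp [Finset.mem_filter, and_assoc]

theorem dbl_inner_le {N : ℝ} {E : Finset ι} {vs : ι → Finset V} {w : ι → ℝ} (H : Hyp N E vs w)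
    (A : Finset V) (v : V) (M : ℝ) (hM : ∀ u ∈ A, deg E vs w A u ≤ M) (e : ι)
    (he : e ∈ alv E vs A v) :
    ∑ f ∈ (aln E vs A v).filter (fun f => ¬ Disjoint (vs e) (vs f)), w f ≤ 3 * M := by
  have heE := dbl_mem_alv.1 he
  have hc : ((vs e).erase v).card = 3 := by
    rw [Finset.card_erase_of_mem heE.2.2, H.card4 e heE.1]
  calc ∑ f ∈ (aln E vs A v).filter (fun f => ¬ Disjoint (vs e) (vs f)), w f
      ≤ ∑ f ∈ (aln E vs A v).filter (fun f => ¬ Disjoint (vs e) (vs f)),
          ∑ u ∈ (vs e).erase v, (if u ∈ vs f then w f else 0) := by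
        refine Finset.sum_le_sum fun f hf => ?_
        rw [Finset.mem_filter] at hf
        obtain ⟨u, hu1, hu2⟩ := Finset.not_disjoint_iff.1 hf.2
        have hf1 := dbl_mem_aln.1 hf.1
        have hne : u ≠ v := by
          rintro rfl
          exact hf1.2.2 hu2
        have h := Finset.single_le_sum (f := fun u => if u ∈ vs f then w f else 0)
          (s := (vs e).erase v) (fun u _ => by
            split_ifs
            · exact H.w0 f hf1.1
            · exact le_refl _) (Finset.mem_erase.2 ⟨hne, hu1⟩)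
        simpa [hu2] using h
    _ = ∑ u ∈ (vs e).erase v,
          ∑ f ∈ (aln E vs A v).filter (fun f => ¬ Disjoint (vs e) (vs f)),
            (if u ∈ vs f then w f else 0) := Finset.sum_comm
    _ ≤ ∑ u ∈ (vs e).erase v, M := by
        refine Finset.sum_le_sum fun u hu => ?_
        refine le_trans ?_ (hM u (heE.2.1 (Finset.mem_of_mem_erase hu)))
        rw [← Finset.sum_filter]
        unfold deg
        refine Finset.sum_le_sum_of_subset_of_nonneg ?_ ?_
        · intro f hf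
          rw [Finset.mem_filter, Finset.mem_filter] at hf
          have h1 := dbl_mem_aln.1 hf.1.1
          exact dbl_mem_alv.2 ⟨h1.1, h1.2.1, hf.2⟩
        · intro f hf _
          exact H.w0 f (dbl_mem_alv.1 hf).1
    _ = 3 * M := by rw [Finset.sum_const, hc]; simp

/-- Upper double count: every edge `e` through `v` has three other vertices `u`, and the edges `f`
(not through `v`) meeting `e` contain one of them. -/
theorem sum_bb_le {N : ℝ} {E : Finset ι} {vs : ι → Finset V} {w : ι → ℝ} (H : Hyp N E vs w)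
    (A : Finset V) (v : V) (M : ℝ) (hM : ∀ u ∈ A, deg E vs w A u ≤ M) :
    ∑ f ∈ aln E vs A v, w f * bb E vs w A f v ≤ deg E vs w A v * (3 * M) := by
  rw [dbl_swap]
  unfold deg
  rw [Finset.sum_mul]
  refine Finset.sum_le_sum fun e he => ?_
  exact mul_le_mul_of_nonneg_left (dbl_inner_le H A v M hM e he) (H.w0 e (dbl_mem_alv.1 he).1)

theorem dbl_pair_le {N : ℝ} {E : Finset ι} {vs : ι → Finset V} {w : ι → ℝ} (H : Hyp N E vs w)
    (u v : V) (huv : u ≠ v) (S : Finset ι) (hS : S ⊆ E) :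
    ∑ f ∈ S.filter (fun f => u ∈ vs f ∧ v ∈ vs f), w f ≤ 24 / N := by
  have h1 : ∑ f ∈ S.filter (fun f => u ∈ vs f ∧ v ∈ vs f), w f ≤
      ∑ f ∈ E.filter (fun f => u ∈ vs f ∧ v ∈ vs f), w f := by
    refine Finset.sum_le_sum_of_subset_of_nonneg (Finset.filter_subset_filter _ hS) ?_
    intro f hf _
    exact H.w0 f (Finset.mem_filter.1 hf).1
  have h2 := Finset.sum_le_card_nsmul (E.filter (fun f => u ∈ vs f ∧ v ∈ vs f)) w (8 / N)
    (fun f hf => H.w8 f (Finset.mem_filter.1 hf).1)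
  have h3 : (((E.filter (fun f => u ∈ vs f ∧ v ∈ vs f)).card : ℕ) : ℝ) ≤ 3 := by
    exact_mod_cast H.codeg u v huv
  have h4 : 0 < 8 / N := div_pos (by norm_num) H.Npos
  rw [nsmul_eq_mul] at h2
  have h5 : (((E.filter (fun f => u ∈ vs f ∧ v ∈ vs f)).card : ℕ) : ℝ) * (8 / N) ≤ 3 * (8 / N) :=
    mul_le_mul_of_nonneg_right h3 h4.le
  have h6 : (3 : ℝ) * (8 / N) = 24 / N := by ring
  linarith

theorem dbl_single_ge {N : ℝ} {E : Finset ι} {vs : ι → Finset V} {w : ι → ℝ} (H : Hyp N E vs w)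
    (A : Finset V) (v : V) (m : ℝ) (hm : ∀ u ∈ A, m ≤ deg E vs w A u) (u : V) (hu : u ∈ A)
    (huv : u ≠ v) :
    m - 24 / N ≤ ∑ f ∈ aln E vs A v, (if u ∈ vs f then w f else 0) := by
  have h1 := hm u hu
  have h2 : deg E vs w A u = ∑ f ∈ aln E vs A v, (if u ∈ vs f then w f else 0) +
      ∑ f ∈ (al E vs A).filter (fun f => u ∈ vs f ∧ v ∈ vs f), w f := by
    unfold deg alv aln
    rw [Finset.sum_filter, Finset.sum_filter, Finset.sum_filter, ← Finset.sum_add_distrib]
    refine Finset.sum_congr rfl fun f _ => ?_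
    by_cases h1 : u ∈ vs f <;> by_cases h2 : v ∈ vs f <;> simp [h1, h2]
  have h3 := dbl_pair_le H u v huv (al E vs A) (Finset.filter_subset _ _)
  linarith

theorem dbl_pair_le' {N : ℝ} {E : Finset ι} {vs : ι → Finset V} {w : ι → ℝ} (H : Hyp N E vs w)
    (A : Finset V) (v x y : V) (hxy : x ≠ y) :
    ∑ f ∈ aln E vs A v, (if x ∈ vs f ∧ y ∈ vs f then w f else 0) ≤ 24 / N := by
  rw [← Finset.sum_filter]
  refine dbl_pair_le H x y hxy _ ?_
  intro f hf
  exact (dbl_mem_aln.1 hf).1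

theorem dbl_inner_ge {N : ℝ} {E : Finset ι} {vs : ι → Finset V} {w : ι → ℝ} (H : Hyp N E vs w)
    (A : Finset V) (v : V) (m : ℝ) (hm : ∀ u ∈ A, m ≤ deg E vs w A u) (e : ι)
    (he : e ∈ alv E vs A v) :
    3 * m - 144 / N ≤ ∑ f ∈ (aln E vs A v).filter (fun f => ¬ Disjoint (vs e) (vs f)), w f := by
  have heE := dbl_mem_alv.1 he
  have hc : ((vs e).erase v).card = 3 := by
    rw [Finset.card_erase_of_mem heE.2.2, H.card4 e heE.1]
  obtain ⟨x, y, z, hxy, hxz, hyz, hT⟩ := Finset.card_eq_three.1 hc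
  have hx : x ∈ (vs e).erase v := by rw [hT]; simp
  have hy : y ∈ (vs e).erase v := by rw [hT]; simp
  have hz : z ∈ (vs e).erase v := by rw [hT]; simp
  rw [Finset.mem_erase] at hx hy hz
  have hxA := heE.2.1 hx.2
  have hyA := heE.2.1 hy.2
  have hzA := heE.2.1 hz.2
  have h1 := dbl_single_ge H A v m hm x hxA hx.1
  have h2 := dbl_single_ge H A v m hm y hyA hy.1
  have h3 := dbl_single_ge H A v m hm z hzA hz.1
  have h4 := dbl_pair_le' H A v x y hxy
  have h5 := dbl_pair_le' H A v x z hxz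
  have h6 := dbl_pair_le' H A v y z hyz
  have h7 : ∑ f ∈ aln E vs A v, (if x ∈ vs f then w f else 0) +
      ∑ f ∈ aln E vs A v, (if y ∈ vs f then w f else 0) +
      ∑ f ∈ aln E vs A v, (if z ∈ vs f then w f else 0) -
      ∑ f ∈ aln E vs A v, (if x ∈ vs f ∧ y ∈ vs f then w f else 0) -
      ∑ f ∈ aln E vs A v, (if x ∈ vs f ∧ z ∈ vs f then w f else 0) -
      ∑ f ∈ aln E vs A v, (if y ∈ vs f ∧ z ∈ vs f then w f else 0) ≤
      ∑ f ∈ (aln E vs A v).filter (fun f => ¬ Disjoint (vs e) (vs f)), w f := by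
    rw [← Finset.sum_add_distrib, ← Finset.sum_add_distrib, ← Finset.sum_sub_distrib,
      ← Finset.sum_sub_distrib, ← Finset.sum_sub_distrib, Finset.sum_filter]
    refine Finset.sum_le_sum fun f hf => ?_
    have hf1 := dbl_mem_aln.1 hf
    have hw := H.w0 f hf1.1
    by_cases hd : Disjoint (vs e) (vs f)
    · have hx' : x ∉ vs f := Finset.disjoint_left.1 hd hx.2
      have hy' : y ∉ vs f := Finset.disjoint_left.1 hd hy.2
      have hz' : z ∉ vs f := Finset.disjoint_left.1 hd hz.2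
      simp [hx', hy', hz', hd]
    · simp only [hd, not_false_eq_true, if_true]
      by_cases a : x ∈ vs f <;> by_cases b : y ∈ vs f <;> by_cases c : z ∈ vs f <;>
        simp [a, b, c, hw]
  have h8 : (144 : ℝ) / N = 6 * (24 / N) := by ring
  linarith

/-- Lower double count (Bonferroni: `1[j >= 1] >= j - C(j,2)` for `j <= 3`). -/
theorem sum_bb_ge {N : ℝ} {E : Finset ι} {vs : ι → Finset V} {w : ι → ℝ} (H : Hyp N E vs w)
    (A : Finset V) (v : V) (m : ℝ) (hm : ∀ u ∈ A, m ≤ deg E vs w A u) :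
    deg E vs w A v * (3 * m - 144 / N) ≤ ∑ f ∈ aln E vs A v, w f * bb E vs w A f v := by
  rw [dbl_swap]
  unfold deg
  rw [Finset.sum_mul]
  refine Finset.sum_le_sum fun e he => ?_
  exact mul_le_mul_of_nonneg_left (dbl_inner_ge H A v m hm e he) (H.w0 e (dbl_mem_alv.1 he).1)

end H69NB
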