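import Mathlib

/-!
# Nibble theorem (random greedy matching), definitions

A 4-uniform hypergraph with edge weights; `al` = edges inside the alive set `A`,
`deg` = weighted degree inside `A`, `tot` = total weight, `bb f v` = weight of the edges
through `v` which die when the edge `f` is taken.
-/

namespace H69NB

open Finset

variable {V ι : Type*} [DecidableEq V] [DecidableEq ι]

/-- Standing hypotheses. -/
structure Hyp (N : ℝ) (E : Finset ι) (vs : ι → Finset V) (w : ι → ℝ) : Prop where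
  Npos : 0 < N
  card4 : ∀ e ∈ E, (vs e).card = 4
  w0 : ∀ e ∈ E, 0 ≤ w e
  w8 : ∀ e ∈ E, w e ≤ 8 / N
  codeg : ∀ u v : V, u ≠ v → (E.filter (fun e => u ∈ vs e ∧ v ∈ vs e)).card ≤ 3

/-- edges inside `A` -/
def al (E : Finset ι) (vs : ι → Finset V) (A : Finset V) : Finset ι :=
  E.filter (fun e => vs e ⊆ A)

/-- edges inside `A` through `v` -/
def alv (E : Finset ι) (vs : ι → Finset V) (A : Finset V) (v : V) : Finset ι :=
  (al E vs A).filter (fun e => v ∈ vs e)

/-- edges inside `A` not through `v` -/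
def aln (E : Finset ι) (vs : ι → Finset V) (A : Finset V) (v : V) : Finset ι :=
  (al E vs A).filter (fun e => v ∉ vs e)

/-- weighted degree of `v` inside `A` -/
noncomputable def deg (E : Finset ι) (vs : ι → Finset V) (w : ι → ℝ) (A : Finset V) (v : V) : ℝ :=
  ∑ e ∈ alv E vs A v, w e

/-- total weight inside `A` -/
noncomputable def tot (E : Finset ι) (vs : ι → Finset V) (w : ι → ℝ) (A : Finset V) : ℝ :=
  ∑ e ∈ al E vs A, w e

/-- weight of the edges through `v` (inside `A`) which meet `f` -/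
noncomputable def bb (E : Finset ι) (vs : ι → Finset V) (w : ι → ℝ) (A : Finset V) (f : ι) (v : V) :
    ℝ :=
  ∑ e ∈ (alv E vs A v).filter (fun e => ¬ Disjoint (vs e) (vs f)), w e

/-- the potential; `a = |A|`, `l` = lambda, `eps : ℝ → ℝ` the barrier as a function of `a` -/
noncomputable def Phi (N n l : ℝ) (eps : ℝ → ℝ) (E : Finset ι) (vs : ι → Finset V) (w : ι → ℝ)
    (St : Finset (Finset V)) (A : Finset V) : ℝ :=
  ∑ v ∈ A, (Real.exp (l * ((n / (A.card : ℝ)) ^ 3 * deg E vs w A v - 1 - eps (A.card : ℝ))) +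
      Real.exp (l * (1 - (n / (A.card : ℝ)) ^ 3 * deg E vs w A v - eps (A.card : ℝ)))) +
    ∑ σ ∈ St, Real.exp (l * (n / (A.card : ℝ) * ((σ ∩ A).card : ℝ) / N - 1 - eps (A.card : ℝ)))

/-- Conditions on the parameters for one step; `a` = number of alive vertices. -/
structure Cond (N n l ε a : ℝ) : Prop where
  hN : 0 < N
  hn : a ≤ n
  ha : 100 ≤ a
  hε : 0 < ε
  hε8 : ε ≤ 1 / 8
  h12 : 12 / a ≤ ε
  h48 : 48 * (n / a) ^ 3 / N ≤ ε
  hl : 0 < l
  hl1 : l * (18 / a + 96 * (n / (a - 4)) ^ 3 / N) ≤ 1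

/-- bound for the second moment in one step -/
noncomputable def QQ (N n a : ℝ) : ℝ := (648 / a + 5760 * (n / (a - 4)) ^ 3 / N) / a

end H69NB
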