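import Mathlib

namespace H69NB

open Finset

theorem exp_avg {ι : Type*} (F : Finset ι) (w Δ : ι → ℝ) (D l m Q : ℝ) (hw : ∀ f ∈ F, 0 ≤ w f)
    (hD : 0 ≤ D) (hl : 0 ≤ l) (hs : ∀ f ∈ F, |l * Δ f| ≤ 1) (h1 : ∑ f ∈ F, w f ≤ D)
    (h2 : ∑ f ∈ F, w f * Δ f ≤ D * m) (h3 : ∑ f ∈ F, w f * (Δ f) ^ 2 ≤ D * Q) :
    ∑ f ∈ F, w f * Real.exp (l * Δ f) ≤ D * Real.exp (l * m + l ^ 2 * Q) := by
  have hb : ∀ f ∈ F, w f * Real.exp (l * Δ f) ≤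
      w f + l * (w f * Δ f) + l ^ 2 * (w f * (Δ f) ^ 2) := by
    intro f hf
    have h := Real.abs_exp_sub_one_sub_id_le (hs f hf)
    have h' := (abs_le.1 h).2
    have : Real.exp (l * Δ f) ≤ 1 + l * Δ f + (l * Δ f) ^ 2 := by linarith
    calc w f * Real.exp (l * Δ f) ≤ w f * (1 + l * Δ f + (l * Δ f) ^ 2) :=
          mul_le_mul_of_nonneg_left this (hw f hf)
      _ = _ := by ring
  have hl2 : (0 : ℝ) ≤ l ^ 2 := by positivity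
  have e1 : l * ∑ f ∈ F, w f * Δ f ≤ l * (D * m) := mul_le_mul_of_nonneg_left h2 hl
  have e2 : l ^ 2 * ∑ f ∈ F, w f * (Δ f) ^ 2 ≤ l ^ 2 * (D * Q) :=
    mul_le_mul_of_nonneg_left h3 hl2
  calc ∑ f ∈ F, w f * Real.exp (l * Δ f)
      ≤ ∑ f ∈ F, (w f + l * (w f * Δ f) + l ^ 2 * (w f * (Δ f) ^ 2)) := Finset.sum_le_sum hb
    _ = ∑ f ∈ F, w f + l * ∑ f ∈ F, w f * Δ f + l ^ 2 * ∑ f ∈ F, w f * (Δ f) ^ 2 := by
        rw [Finset.sum_add_distrib, Finset.sum_add_distrib, Finset.mul_sum, Finset.mul_sum]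
    _ ≤ D + l * (D * m) + l ^ 2 * (D * Q) := by linarith
    _ = D * ((l * m + l ^ 2 * Q) + 1) := by ring
    _ ≤ D * Real.exp (l * m + l ^ 2 * Q) :=
        mul_le_mul_of_nonneg_left (Real.add_one_le_exp _) hD

/-- the barrier grows fast enough -/
theorem eps_growth (e0 n a : ℝ) (he : 0 ≤ e0) (hn : 0 ≤ n) (ha : 100 ≤ a) :
    e0 * (n / a) ^ 50 + 200 * (e0 * (n / a) ^ 50) / a ≤ e0 * (n / (a - 4)) ^ 50 := by
  have ha0 : (0 : ℝ) < a := by linarith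
  have ha4 : (0 : ℝ) < a - 4 := by linarith
  have h1 : (1 : ℝ) + 4 / a ≤ a / (a - 4) := by
    rw [le_div_iff₀ ha4]
    have : (1 + 4 / a) * (a - 4) = a - 16 / a := by
      field_simp
      ring
    rw [this]
    have : 0 ≤ 16 / a := by positivity
    linarith
  have h0 : (0 : ℝ) ≤ 4 / a := by positivity
  have h10 : (0 : ℝ) ≤ 1 + 4 / a := by linarith
  have hpw : (1 + 4 / a) ^ 50 ≤ (a / (a - 4)) ^ 50 := pow_le_pow_left₀ h10 h1 50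
  have h2 : (1 : ℝ) + 200 / a ≤ (a / (a - 4)) ^ 50 := by
    have hB := one_add_mul_le_pow (R := ℝ) (a := 4 / a) (by linarith) 50
    calc (1 : ℝ) + 200 / a = 1 + ((50 : ℕ) : ℝ) * (4 / a) := by push_cast; ring
      _ ≤ (1 + 4 / a) ^ 50 := hB
      _ ≤ (a / (a - 4)) ^ 50 := hpw
  have h3 : n / (a - 4) = (n / a) * (a / (a - 4)) := by
    field_simp
  rw [h3, mul_pow]
  have hp : (0 : ℝ) ≤ e0 * (n / a) ^ 50 :=
    mul_nonneg he (pow_nonneg (div_nonneg hn ha0.le) 50)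
  calc e0 * (n / a) ^ 50 + 200 * (e0 * (n / a) ^ 50) / a
      = (e0 * (n / a) ^ 50) * (1 + 200 / a) := by ring
    _ ≤ (e0 * (n / a) ^ 50) * (a / (a - 4)) ^ 50 := mul_le_mul_of_nonneg_left h2 hp
    _ = _ := by ring

end H69NB
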