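import Pool.Agent.H69.NB.Defs

namespace H69NB

open Finset

theorem par_core (x P h3 : ℝ) (hP : 1 ≤ P) (hh : 8 ≤ h3) (hx : P ^ 50 * h3 * 2 ^ 20 ≤ x)
    (n a : ℝ) (hn : x ^ 8 / 16 ≤ n) (han : a ≤ n) (hna : n ≤ a * P) :
      Cond (x ^ 8) n (x ^ 2) (1 / (P ^ 50 * h3) * (n / a) ^ 50) a ∧
      (x ^ 2) ^ 2 * QQ (x ^ 8) n a ≤ 4 / n ∧ 4 * P ≤ n := by
  have hP0 : 0 < P := by linarith
  have hP50 : 1 ≤ P ^ 50 := one_le_pow₀ hP
  have hR0 : 0 < P ^ 50 * h3 := by positivity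
  have hR8 : 8 ≤ P ^ 50 * h3 := by nlinarith
  have hR : P ^ 50 * 8 ≤ P ^ 50 * h3 := by nlinarith
  have hxR : P ^ 50 * h3 ≤ x := by nlinarith
  have hxb : (2 : ℝ) ^ 20 ≤ x := by nlinarith
  have hx0 : 0 < x := lt_of_lt_of_le (by norm_num) hxb
  have hx1 : 1 ≤ x := le_trans (by norm_num) hxb
  have hP1 : P ≤ P ^ 50 := le_self_pow₀ hP (by norm_num)
  have hP3 : P ^ 3 ≤ P ^ 50 := pow_le_pow_right₀ hP (by norm_num)
  have hPx : P * 2 ^ 20 ≤ x := by nlinarith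
  have hP3x : P ^ 3 * 2 ^ 20 ≤ x := by nlinarith
  have hx7 : 1 ≤ x ^ 7 := one_le_pow₀ hx1
  have hx70 : 0 < x ^ 7 := by positivity
  have hxx7 : x ≤ x ^ 7 := le_self_pow₀ hx1 (by norm_num)
  have hx8e : x ^ 8 = x ^ 7 * x := by ring
  have hn0 : 0 < n := lt_of_lt_of_le (by positivity) hn
  have ha0 : 0 < a := by
    by_contra hc
    push Not at hc
    have : a * P ≤ 0 := mul_nonpos_of_nonpos_of_nonneg hc hP0.le
    linarith
  have hax : x ^ 7 * 2 ^ 16 ≤ a := by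
    have h1 : x ^ 7 * (P * 2 ^ 20) / 16 ≤ a * P := by
      have : x ^ 7 * (P * 2 ^ 20) ≤ x ^ 7 * x := mul_le_mul_of_nonneg_left hPx hx70.le
      rw [← hx8e] at this
      linarith
    have h2 : x ^ 7 * 2 ^ 16 * P ≤ a * P := by
      have : x ^ 7 * 2 ^ 16 * P = x ^ 7 * (P * 2 ^ 20) / 16 := by ring
      linarith
    exact le_of_mul_le_mul_right h2 hP0
  have hax7 : x ^ 7 ≤ a := by nlinarith
  have ha100 : 100 ≤ a := by nlinarith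
  have ha4 : 0 < a - 4 := by linarith
  have ht1 : 1 ≤ n / a := by rw [le_div_iff₀ ha0]; linarith
  have htP : n / a ≤ P := by rw [div_le_iff₀ ha0]; linarith
  have ht4 : n / (a - 4) ≤ 2 * P := by
    rw [div_le_iff₀ ha4]
    nlinarith
  have ht40 : 0 ≤ n / (a - 4) := by positivity
  have ht43 : (n / (a - 4)) ^ 3 ≤ 8 * P ^ 3 := by
    calc (n / (a - 4)) ^ 3 ≤ (2 * P) ^ 3 := pow_le_pow_left₀ ht40 ht4 3
      _ = 8 * P ^ 3 := by ring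
  have hi : 1 / a ≤ 1 / (x ^ 7 * 2 ^ 16) := one_div_le_one_div_of_le (by positivity) hax
  have hi0 : 0 < 1 / a := by positivity
  have hie : 1 / (x ^ 7 * 2 ^ 16) = 1 / x ^ 7 / 2 ^ 16 := by
    rw [div_div]
  have hP38 : P ^ 3 / x ^ 8 ≤ 1 / x ^ 7 / 2 ^ 20 := by
    rw [hx8e, div_div, div_le_div_iff₀ (by positivity) (by positivity)]
    nlinarith
  have hP380 : 0 ≤ P ^ 3 / x ^ 8 := by positivity
  have hx7x : 1 / x ^ 7 ≤ 1 / x := one_div_le_one_div_of_le hx0 hxx7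
  have hxR' : 1 / x ≤ 1 / (P ^ 50 * h3) := one_div_le_one_div_of_le hR0 hxR
  have hx7p : 0 < 1 / x ^ 7 := by positivity
  have heps : 1 / (P ^ 50 * h3) ≤ 1 / (P ^ 50 * h3) * (n / a) ^ 50 := by
    have h1 : 1 ≤ (n / a) ^ 50 := one_le_pow₀ ht1
    have h2 : 0 < 1 / (P ^ 50 * h3) := by positivity
    nlinarith
  have h8 : 1 / (P ^ 50 * h3) * (n / a) ^ 50 ≤ 1 / 8 := by
    have h1 : (n / a) ^ 50 ≤ P ^ 50 := pow_le_pow_left₀ (by positivity) htP 50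
    rw [one_div, inv_mul_le_iff₀ hR0]
    have : P ^ 50 * h3 * (1 / 8) ≥ P ^ 50 := by linarith
    linarith
  have hs : 48 * (n / a) ^ 3 / x ^ 8 ≤ 48 * (1 / x ^ 7 / 2 ^ 20) := by
    have h1 : (n / a) ^ 3 ≤ P ^ 3 := pow_le_pow_left₀ (by positivity) htP 3
    have h2 : (n / a) ^ 3 / x ^ 8 ≤ P ^ 3 / x ^ 8 := div_le_div_of_nonneg_right h1 (by positivity)
    have h3 : 48 * (n / a) ^ 3 / x ^ 8 = 48 * ((n / a) ^ 3 / x ^ 8) := by ring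
    rw [h3]
    linarith
  have hs4 : (n / (a - 4)) ^ 3 / x ^ 8 ≤ 8 * (1 / x ^ 7 / 2 ^ 20) := by
    have h2 : (n / (a - 4)) ^ 3 / x ^ 8 ≤ 8 * P ^ 3 / x ^ 8 :=
      div_le_div_of_nonneg_right ht43 (by positivity)
    have h3 : 8 * P ^ 3 / x ^ 8 = 8 * (P ^ 3 / x ^ 8) := by ring
    linarith
  refine ⟨⟨by positivity, han, ha100, by positivity, h8, ?_, ?_, by positivity, ?_⟩, ?_, ?_⟩
  · have : 12 / a = 12 * (1 / a) := by ring
    rw [this]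
    linarith
  · linarith
  · have h1 : 18 / a = 18 * (1 / a) := by ring
    have h2 : 96 * (n / (a - 4)) ^ 3 / x ^ 8 = 96 * ((n / (a - 4)) ^ 3 / x ^ 8) := by ring
    rw [h1, h2]
    have h3 : 18 * (1 / a) + 96 * ((n / (a - 4)) ^ 3 / x ^ 8) ≤ 1 / x ^ 7 := by linarith
    have h4 : x ^ 2 * (1 / x ^ 7) ≤ 1 := by
      rw [mul_one_div, div_le_one hx70]
      exact pow_le_pow_right₀ hx1 (by norm_num)
    calc x ^ 2 * (18 * (1 / a) + 96 * ((n / (a - 4)) ^ 3 / x ^ 8)) ≤ x ^ 2 * (1 / x ^ 7) :=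
          mul_le_mul_of_nonneg_left h3 (by positivity)
      _ ≤ 1 := h4
  · unfold QQ
    have h1 : 648 / a = 648 * (1 / a) := by ring
    have h2 : 5760 * (n / (a - 4)) ^ 3 / x ^ 8 = 5760 * ((n / (a - 4)) ^ 3 / x ^ 8) := by ring
    rw [h1, h2]
    have h3 : 648 * (1 / a) + 5760 * ((n / (a - 4)) ^ 3 / x ^ 8) ≤ 1 / x ^ 7 := by linarith
    have h4 : (648 * (1 / a) + 5760 * ((n / (a - 4)) ^ 3 / x ^ 8)) / a ≤ 1 / x ^ 7 / a :=
      div_le_div_of_nonneg_right h3 ha0.le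
    have h5 : (x ^ 2) ^ 2 * (1 / x ^ 7 / a) ≤ 4 / n := by
      have h6 : (x ^ 2) ^ 2 * (1 / x ^ 7 / a) = 1 / (x ^ 3 * a) := by
        field_simp
      rw [h6, div_le_div_iff₀ (by positivity) hn0]
      have h7 : P ≤ x ^ 3 := by
        have : x ≤ x ^ 3 := le_self_pow₀ hx1 (by norm_num)
        nlinarith
      nlinarith
    calc (x ^ 2) ^ 2 * ((648 * (1 / a) + 5760 * ((n / (a - 4)) ^ 3 / x ^ 8)) / a)
        ≤ (x ^ 2) ^ 2 * (1 / x ^ 7 / a) := mul_le_mul_of_nonneg_left h4 (by positivity)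
      _ ≤ 4 / n := h5
  · have h1 : x ≤ x ^ 8 := le_self_pow₀ hx1 (by norm_num)
    nlinarith

/-- all conditions hold if `N` is at least a large power of `h` and large -/
theorem params (k : ℕ) : ∃ H N0 : ℕ, ∀ N h : ℕ, N0 ≤ N → 2 ≤ h → h ^ H ≤ N →
    (9 * (N : ℝ) ^ 3 ≤
      Real.exp (Real.sqrt (Real.sqrt (N : ℝ)) * (1 / (h : ℝ) ^ (50 * k + 3)))) ∧
    ∀ n a : ℝ, (N : ℝ) / 16 ≤ n → a ≤ n → n ≤ a * (h : ℝ) ^ k →
      Cond (N : ℝ) n (Real.sqrt (Real.sqrt (N : ℝ))) (1 / (h : ℝ) ^ (50 * k + 3) * (n / a) ^ 50) a ∧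
      Real.sqrt (Real.sqrt (N : ℝ)) ^ 2 * QQ (N : ℝ) n a ≤ 4 / n ∧ 4 * (h : ℝ) ^ k ≤ n := by
  refine ⟨8 * (50 * k + 23), 1, fun N h hN0 hh hH => ?_⟩
  obtain ⟨x, hx⟩ : ∃ x : ℝ, x = Real.sqrt (Real.sqrt (Real.sqrt (N : ℝ))) := ⟨_, rfl⟩
  have hx0 : 0 ≤ x := by rw [hx]; exact Real.sqrt_nonneg _
  have hx2 : Real.sqrt (Real.sqrt (N : ℝ)) = x ^ 2 := by
    rw [hx, Real.sq_sqrt (Real.sqrt_nonneg _)]
  have hx8 : (N : ℝ) = x ^ 8 := by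
    have h1 : Real.sqrt (N : ℝ) = (Real.sqrt (Real.sqrt (N : ℝ))) ^ 2 :=
      (Real.sq_sqrt (Real.sqrt_nonneg _)).symm
    have h2 : (N : ℝ) = (Real.sqrt (N : ℝ)) ^ 2 := (Real.sq_sqrt (Nat.cast_nonneg _)).symm
    rw [h2, h1, hx2]
    ring
  have hhR : (2 : ℝ) ≤ h := by exact_mod_cast hh
  have hm : (h : ℝ) ^ (50 * k + 23) ≤ x := by
    have h1 : ((h : ℝ) ^ (50 * k + 23)) ^ 8 ≤ x ^ 8 := by
      rw [← hx8, ← pow_mul, mul_comm]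
      exact_mod_cast hH
    exact le_of_pow_le_pow_left₀ (by norm_num) hx0 h1
  have hP : 1 ≤ (h : ℝ) ^ k := one_le_pow₀ (by linarith)
  have hR : (h : ℝ) ^ (50 * k + 3) = ((h : ℝ) ^ k) ^ 50 * (h : ℝ) ^ 3 := by
    rw [← pow_mul, ← pow_add, mul_comm k 50]
  have h3 : (8 : ℝ) ≤ (h : ℝ) ^ 3 := by
    calc (8 : ℝ) = 2 ^ 3 := by norm_num
      _ ≤ (h : ℝ) ^ 3 := pow_le_pow_left₀ (by norm_num) hhR 3
  have hxR : ((h : ℝ) ^ k) ^ 50 * (h : ℝ) ^ 3 * 2 ^ 20 ≤ x := by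
    have h4 : (2 : ℝ) ^ 20 ≤ (h : ℝ) ^ 20 := pow_le_pow_left₀ (by norm_num) hhR 20
    have h5 : (h : ℝ) ^ (50 * k + 23) = ((h : ℝ) ^ k) ^ 50 * (h : ℝ) ^ 3 * (h : ℝ) ^ 20 := by
      rw [← hR, ← pow_add]
    rw [h5] at hm
    have h6 : 0 ≤ ((h : ℝ) ^ k) ^ 50 * (h : ℝ) ^ 3 := by positivity
    exact le_trans (mul_le_mul_of_nonneg_left h4 h6) hm
  constructor
  · rw [hx2, hR, hx8]
    have hR0 : 0 < ((h : ℝ) ^ k) ^ 50 * (h : ℝ) ^ 3 := by positivity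
    have hR1 : 1 ≤ ((h : ℝ) ^ k) ^ 50 * (h : ℝ) ^ 3 := by
      have : 1 ≤ ((h : ℝ) ^ k) ^ 50 := one_le_pow₀ hP
      nlinarith
    have hxb : (2 : ℝ) ^ 20 ≤ x := by nlinarith
    have hxR' : ((h : ℝ) ^ k) ^ 50 * (h : ℝ) ^ 3 ≤ x := by nlinarith
    have hx1 : 0 < x := lt_of_lt_of_le (by norm_num) hxb
    have e1 : x ≤ x ^ 2 * (1 / (((h : ℝ) ^ k) ^ 50 * (h : ℝ) ^ 3)) := by
      rw [mul_one_div, le_div_iff₀ hR0, sq]
      exact mul_le_mul_of_nonneg_left hxR' hx1.le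
    have e2 : 9 * (x ^ 8) ^ 3 ≤ Real.exp x := by
      have e3 : x / 48 ≤ Real.exp (x / 48) := by
        have := Real.add_one_le_exp (x / 48)
        linarith
      have e4 : Real.exp x = Real.exp (x / 48) ^ 48 := by
        rw [← Real.exp_nat_mul]
        congr 1
        push_cast
        ring
      have e5 : (x / 48) ^ 48 ≤ Real.exp (x / 48) ^ 48 := pow_le_pow_left₀ (by positivity) e3 48
      have e6 : (x / 48) ^ 48 = (x * (x / 2304)) ^ 24 := by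
        have : (x / 48) ^ 48 = ((x / 48) ^ 2) ^ 24 := by rw [← pow_mul]
        rw [this]
        congr 1
        ring
      have e7 : x * 2 ≤ x * (x / 2304) := by
        apply mul_le_mul_of_nonneg_left _ hx1.le
        rw [le_div_iff₀ (by norm_num)]
        linarith
      have e8 : (x * 2) ^ 24 ≤ (x * (x / 2304)) ^ 24 := pow_le_pow_left₀ (by positivity) e7 24
      have e9 : (x * 2) ^ 24 = x ^ 24 * 2 ^ 24 := by ring
      have e10 : (x ^ 8) ^ 3 = x ^ 24 := by ring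
      have e11 : 0 < x ^ 24 := by positivity
      rw [e10]
      nlinarith
    exact le_trans e2 (Real.exp_le_exp.mpr e1)
  · intro n a hn han hna
    rw [hx2, hR, hx8]
    rw [hx8] at hn
    exact par_core x ((h : ℝ) ^ k) ((h : ℝ) ^ 3) hP h3 hxR n a hn han hna

end H69NB
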