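import Pool.Agent.H69.NB.Defs

namespace H69NB

open Finset

variable {V ι : Type*} [DecidableEq V] [DecidableEq ι]

/-- a vertex of weighted degree at least 1/2 forces at least `N/16` vertices -/
theorem card_ge {N : ℝ} {E : Finset ι} {vs : ι → Finset V} {w : ι → ℝ} (H : Hyp N E vs w)
    (W : Finset V) (hE : ∀ e ∈ E, vs e ⊆ W) (v : V) (hv : v ∈ W)
    (h : 1 / 2 ≤ deg E vs w W v) : N / 16 ≤ (W.card : ℝ) := by
  classical
  obtain ⟨D, hD⟩ : ∃ D, D = alv E vs W v := ⟨_, rfl⟩
  have hDE : ∀ e ∈ D, e ∈ E ∧ v ∈ vs e := by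
    intro e he
    rw [hD] at he
    unfold alv al at he
    rw [mem_filter, mem_filter] at he
    exact ⟨he.1.1, he.2⟩
  have h1 : deg E vs w W v ≤ (D.card : ℝ) * (8 / N) := by
    unfold deg
    rw [← hD, ← nsmul_eq_mul]
    exact sum_le_card_nsmul _ _ _ fun e he => H.w8 e (hDE e he).1
  have h2 : ∑ e ∈ D, ((W.erase v).filter (fun u => u ∈ vs e)).card =
      ∑ u ∈ W.erase v, (D.filter (fun e => u ∈ vs e)).card :=
    sum_card_bipartiteAbove_eq_sum_card_bipartiteBelow (s := D) (t := W.erase v)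
      (fun e u => u ∈ vs e)
  have h3 : ∑ e ∈ D, ((W.erase v).filter (fun u => u ∈ vs e)).card = D.card * 3 := by
    rw [sum_const_nat]
    intro e he
    have h4 : (W.erase v).filter (fun u => u ∈ vs e) = (vs e).erase v := by
      ext u
      rw [mem_filter, mem_erase, mem_erase]
      constructor
      · rintro ⟨⟨h5, -⟩, h6⟩
        exact ⟨h5, h6⟩
      · rintro ⟨h5, h6⟩
        exact ⟨⟨h5, hE e (hDE e he).1 h6⟩, h6⟩
    rw [h4, card_erase_of_mem (hDE e he).2, H.card4 e (hDE e he).1]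
  have h4 : ∑ u ∈ W.erase v, (D.filter (fun e => u ∈ vs e)).card ≤ (W.erase v).card * 3 := by
    rw [← smul_eq_mul]
    refine sum_le_card_nsmul _ _ _ fun u hu => ?_
    have hne : v ≠ u := fun h5 => (mem_erase.1 hu).1 h5.symm
    refine le_trans (card_le_card ?_) (H.codeg v u hne)
    intro e he
    rw [mem_filter] at he ⊢
    exact ⟨(hDE e he.1).1, (hDE e he.1).2, he.2⟩
  have h5 : D.card ≤ W.card := by
    have h6 := card_erase_le (s := W) (a := v)
    have : D.card * 3 ≤ (W.erase v).card * 3 := by rw [← h3, h2]; exact h4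
    omega
  have h6 : (D.card : ℝ) ≤ (W.card : ℝ) := by exact_mod_cast h5
  have hN := H.Npos
  have h7 : 1 / 2 ≤ (D.card : ℝ) * (8 / N) := le_trans h h1
  have h8 : N / 16 ≤ (D.card : ℝ) := by
    rw [mul_div_assoc', le_div_iff₀ hN] at h7
    linarith
  linarith

end H69NB
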