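import Pool.Agent.H69.NB.Step
import Pool.Agent.H69.NB.Size
import Pool.Agent.H69.NB.Param

namespace H69NB

open Finset

variable {V ι : Type*} [DecidableEq V] [DecidableEq ι]

/-- The greedy process: it runs until `a h^k <= 2 n`. -/
theorem iterate {N n l : ℝ} {eps : ℝ → ℝ} {E : Finset ι} {vs : ι → Finset V} {w : ι → ℝ}
    (H : Hyp N E vs w) (St : Finset (Finset V)) (hSt : ∀ σ ∈ St, ∀ e ∈ E, (vs e ∩ σ).card ≤ 1)
    (W : Finset V) (hk : ℝ) (h4 : 4 * hk ≤ n) (hn : 0 < n) (hk0 : 0 < hk)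
    (P0 : ℝ)
    (hC : ∀ a : ℝ, a ≤ n → n ≤ a * hk → Cond N n l (eps a) a ∧ l ^ 2 * QQ N n a ≤ 4 / n ∧
      eps a + 200 * eps a / a ≤ eps (a - 4) ∧ P0 * Real.exp 1 ≤ Real.exp (l * eps a))
    (hP0 : 0 ≤ P0) :
    ∀ m : ℕ, ∀ A : Finset V, A.card = m → A ⊆ W → (A.card : ℝ) ≤ n → n ≤ (A.card : ℝ) * hk →
      Phi N n l eps E vs w St A ≤ P0 * Real.exp ((n - (A.card : ℝ)) / n) →
      ∀ M : Finset ι, M ⊆ E → (M : Set ι).PairwiseDisjoint vs → W \ A ⊆ M.biUnion vs →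
      Disjoint A (M.biUnion vs) →
      ∃ (A' : Finset V) (M' : Finset ι), A' ⊆ W ∧ (A'.card : ℝ) ≤ n ∧ n ≤ (A'.card : ℝ) * hk ∧
        (A'.card : ℝ) * hk ≤ 2 * n ∧ M' ⊆ E ∧ (M' : Set ι).PairwiseDisjoint vs ∧
        W \ A' ⊆ M'.biUnion vs ∧ Phi N n l eps E vs w St A' ≤ P0 * Real.exp 1 := by
  intro m
  induction m using Nat.strong_induction_on with
  | _ m ih =>
    intro A hAm hAW hAn hAk hPhi M hME hMd hWM hAM
    have hexp1 : P0 * Real.exp ((n - (A.card : ℝ)) / n) ≤ P0 * Real.exp 1 := by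
      apply mul_le_mul_of_nonneg_left _ hP0
      apply Real.exp_le_exp.mpr
      rw [div_le_one hn]
      have : (0 : ℝ) ≤ A.card := by positivity
      linarith
    by_cases hstop : (A.card : ℝ) * hk ≤ 2 * n
    · exact ⟨A, M, hAW, hAn, hAk, hstop, hME, hMd, hWM, hPhi.trans hexp1⟩
    push Not at hstop
    obtain ⟨C, hQ, hg, hP⟩ := hC (A.card : ℝ) hAn hAk
    obtain ⟨f, hf, hstep⟩ := one_step H St hSt A C hg ((hPhi.trans hexp1).trans hP)
    have hf' := Finset.mem_filter.mp hf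
    have h4c : 4 ≤ A.card := by
      rw [← H.card4 f hf'.1]
      exact Finset.card_le_card hf'.2
    have hcardN : (A \ vs f).card = A.card - 4 := by
      rw [Finset.card_sdiff_of_subset hf'.2, H.card4 f hf'.1]
    have hcard : ((A \ vs f).card : ℝ) = (A.card : ℝ) - 4 := by
      rw [hcardN]
      push_cast [h4c]
      ring
    have hfd : ∀ e ∈ M, Disjoint (vs f) (vs e) := by
      intro e he
      exact Finset.disjoint_of_subset_left hf'.2
        (Finset.disjoint_of_subset_right (Finset.subset_biUnion_of_mem vs he) hAM)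
    refine ih (A.card - 4) (by omega) (A \ vs f) hcardN (Finset.sdiff_subset.trans hAW)
      (by rw [hcard]; linarith) (by rw [hcard]; nlinarith) ?_ (insert f M) ?_ ?_ ?_ ?_
    · refine hstep.trans ?_
      have h1 : Phi N n l eps E vs w St A * Real.exp (l ^ 2 * QQ N n (A.card : ℝ)) ≤
          (P0 * Real.exp ((n - (A.card : ℝ)) / n)) * Real.exp (4 / n) :=
        mul_le_mul hPhi (Real.exp_le_exp.mpr hQ) (Real.exp_pos _).le (by positivity)
      refine h1.trans (le_of_eq ?_)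
      rw [mul_assoc, ← Real.exp_add, hcard]
      congr 2
      field_simp
      ring
    · exact Finset.insert_subset hf'.1 hME
    · rw [Finset.coe_insert]
      refine Set.PairwiseDisjoint.insert hMd ?_
      intro e he _
      exact hfd e he
    · intro x hx
      rw [Finset.biUnion_insert, Finset.mem_union]
      rw [Finset.mem_sdiff, Finset.mem_sdiff] at hx
      by_cases hxf : x ∈ vs f
      · exact Or.inl hxf
      · right
        apply hWM
        rw [Finset.mem_sdiff]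
        refine ⟨hx.1, fun hxA => hx.2 ⟨hxA, hxf⟩⟩
    · rw [Finset.biUnion_insert, Finset.disjoint_union_right]
      exact ⟨Finset.sdiff_disjoint, Finset.disjoint_of_subset_left Finset.sdiff_subset hAM⟩

/-- Quantitative nibble theorem (Pippenger, Frankl and Roedl), with weights, for 4-uniform
hypergraphs of codegree at most 3 and families of stars met at most once by each edge. -/
theorem nibble (k0 : ℕ) : ∃ c H N0 : ℕ, ∀ N h : ℕ, N0 ≤ N → 2 ≤ h → h ^ H ≤ N →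
    ∀ {V ι : Type*} [DecidableEq V] [DecidableEq ι] (E : Finset ι) (vs : ι → Finset V)
      (W : Finset V) (w : ι → ℝ) (St : Finset (Finset V)),
      W.card ≤ N ^ 3 → St.card ≤ N ^ 3 →
      (∀ e ∈ E, vs e ⊆ W) → (∀ e ∈ E, (vs e).card = 4) →
      (∀ e ∈ E, 0 ≤ w e) → (∀ e ∈ E, w e ≤ 8 / (N : ℝ)) →
      (∀ u v : V, u ≠ v → (E.filter (fun e => u ∈ vs e ∧ v ∈ vs e)).card ≤ 3) →
      (∀ v ∈ W, |∑ e ∈ E.filter (fun e => v ∈ vs e), w e - 1| ≤ 1 / (h : ℝ) ^ c) →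
      (∀ σ ∈ St, σ ⊆ W ∧ σ.card ≤ N ∧ ∀ e ∈ E, (vs e ∩ σ).card ≤ 1) →
      ∃ M ⊆ E, (M : Set ι).PairwiseDisjoint vs ∧
        ∀ σ ∈ St, ((σ \ M.biUnion vs).card : ℝ) ≤ (N : ℝ) / (h : ℝ) ^ k0 := by
  obtain ⟨H, N0, hpar⟩ := params (k0 + 2)
  refine ⟨50 * (k0 + 2) + 3, H, N0 + 1, ?_⟩
  intro N h hN hh hH V ι _ _ E vs W w St hW hSt hE h4 h0 h8 hcod hdeg hst
  have hNpos : (0 : ℝ) < N := by
    have : 0 < N := by omega
    exact_mod_cast this
  have hhR : (2 : ℝ) ≤ h := by exact_mod_cast hh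
  have hhpos : (0 : ℝ) < h := by linarith
  have HH : Hyp (N : ℝ) E vs w := ⟨hNpos, h4, h0, h8, hcod⟩
  rcases W.eq_empty_or_nonempty with hWe | hWne
  · refine ⟨∅, Finset.empty_subset _, by simp, ?_⟩
    intro σ hσ
    have := (hst σ hσ).1
    rw [hWe, Finset.subset_empty] at this
    rw [this]
    simp
    positivity
  obtain ⟨hbig, hpar2⟩ := hpar N h (by omega) hh hH
  -- degrees
  have hdegW : ∀ v, deg E vs w W v = ∑ e ∈ E.filter (fun e => v ∈ vs e), w e := by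
    intro v
    unfold deg alv al
    rw [Finset.filter_true_of_mem hE]
  set c : ℕ := 50 * (k0 + 2) + 3 with hc
  have hcle : 1 / (h : ℝ) ^ c ≤ 1 / 2 := by
    apply one_div_le_one_div_of_le (by norm_num)
    calc (2 : ℝ) = 2 ^ 1 := by norm_num
      _ ≤ (h : ℝ) ^ 1 := by simpa using hhR
      _ ≤ (h : ℝ) ^ c := pow_le_pow_right₀ (by linarith) (by omega)
  have hcpos : 0 < 1 / (h : ℝ) ^ c := by positivity
  obtain ⟨v0, hv0⟩ := hWne
  have hsize : (N : ℝ) / 16 ≤ (W.card : ℝ) := by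
    refine card_ge HH W hE v0 hv0 ?_
    rw [hdegW]
    have := (abs_le.mp (hdeg v0 hv0)).1
    linarith
  set n : ℝ := (W.card : ℝ) with hn
  have hnpos : 0 < n := by
    have : (0 : ℝ) < (N : ℝ) / 16 := by positivity
    linarith
  set l : ℝ := Real.sqrt (Real.sqrt (N : ℝ)) with hl
  set eps : ℝ → ℝ := fun a => 1 / (h : ℝ) ^ c * (n / a) ^ 50 with heps
  have hlpos : 0 ≤ l := Real.sqrt_nonneg _
  -- main iteration
  have h4n : 4 * (h : ℝ) ^ (k0 + 2) ≤ n := by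
    have h1 : (1 : ℝ) ≤ (h : ℝ) ^ (k0 + 2) := one_le_pow₀ (by linarith)
    exact (hpar2 n n hsize le_rfl (by nlinarith)).2.2
  have hC : ∀ a : ℝ, a ≤ n → n ≤ a * (h : ℝ) ^ (k0 + 2) →
      Cond (N : ℝ) n l (eps a) a ∧ l ^ 2 * QQ (N : ℝ) n a ≤ 4 / n ∧
      eps a + 200 * eps a / a ≤ eps (a - 4) ∧
      (3 * (N : ℝ) ^ 3) * Real.exp 1 ≤ Real.exp (l * eps a) := by
    intro a ha1 ha2
    obtain ⟨p1, p2, -⟩ := hpar2 n a hsize ha1 ha2
    refine ⟨p1, p2, ?_, ?_⟩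
    · exact eps_growth _ n a hcpos.le hnpos.le p1.ha
    · have he : Real.exp 1 ≤ 3 := by
        have := Real.exp_one_lt_d9
        linarith
      have h3 : (3 * (N : ℝ) ^ 3) * Real.exp 1 ≤ 9 * (N : ℝ) ^ 3 := by
        have : 0 ≤ 3 * (N : ℝ) ^ 3 := by positivity
        nlinarith
      refine h3.trans (hbig.trans (Real.exp_le_exp.mpr ?_))
      apply mul_le_mul_of_nonneg_left _ hlpos
      have hapos : 0 < a := by linarith [p1.ha]
      have : 1 ≤ (n / a) ^ 50 := one_le_pow₀ ((one_le_div hapos).mpr ha1)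
      show 1 / (h : ℝ) ^ c ≤ 1 / (h : ℝ) ^ c * (n / a) ^ 50
      nlinarith
  have hstart : Phi (N : ℝ) n l eps E vs w St W ≤
      (3 * (N : ℝ) ^ 3) * Real.exp ((n - (W.card : ℝ)) / n) := by
    rw [← hn, sub_self, zero_div, Real.exp_zero, mul_one]
    unfold Phi
    rw [← hn]
    have hnn : n / n = 1 := div_self hnpos.ne'
    have heN : eps n = 1 / (h : ℝ) ^ c := by
      show 1 / (h : ℝ) ^ c * (n / n) ^ 50 = _
      rw [hnn]; ring
    rw [hnn, heN]
    have hA : ∑ v ∈ W, (Real.exp (l * (1 ^ 3 * deg E vs w W v - 1 - 1 / (h : ℝ) ^ c)) +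
        Real.exp (l * (1 - 1 ^ 3 * deg E vs w W v - 1 / (h : ℝ) ^ c))) ≤ ∑ v ∈ W, (2 : ℝ) := by
      apply Finset.sum_le_sum
      intro v hv
      have h1 := hdeg v hv
      rw [← hdegW] at h1
      obtain ⟨h1a, h1b⟩ := abs_le.mp h1
      have e1 : Real.exp (l * (1 ^ 3 * deg E vs w W v - 1 - 1 / (h : ℝ) ^ c)) ≤ 1 := by
        apply Real.exp_le_one_iff.mpr
        apply mul_nonpos_of_nonneg_of_nonpos hlpos
        linarith
      have e2 : Real.exp (l * (1 - 1 ^ 3 * deg E vs w W v - 1 / (h : ℝ) ^ c)) ≤ 1 := by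
        apply Real.exp_le_one_iff.mpr
        apply mul_nonpos_of_nonneg_of_nonpos hlpos
        linarith
      linarith
    have hB : ∑ σ ∈ St, Real.exp (l * (1 * ((σ ∩ W).card : ℝ) / (N : ℝ) - 1 - 1 / (h : ℝ) ^ c)) ≤
        ∑ σ ∈ St, (1 : ℝ) := by
      apply Finset.sum_le_sum
      intro σ hσ
      apply Real.exp_le_one_iff.mpr
      apply mul_nonpos_of_nonneg_of_nonpos hlpos
      have h1 : ((σ ∩ W).card : ℝ) ≤ N := by
        have := (Finset.card_le_card (Finset.inter_subset_left (s₁ := σ) (s₂ := W))).trans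
          (hst σ hσ).2.1
        exact_mod_cast this
      have h2 : 1 * ((σ ∩ W).card : ℝ) / (N : ℝ) ≤ 1 := by
        rw [one_mul, div_le_one hNpos]
        exact h1
      linarith
    rw [Finset.sum_const, nsmul_eq_mul] at hA hB
    have hWc : (W.card : ℝ) ≤ (N : ℝ) ^ 3 := by exact_mod_cast hW
    have hSc : (St.card : ℝ) ≤ (N : ℝ) ^ 3 := by exact_mod_cast hSt
    linarith
  have h1k : (1 : ℝ) ≤ (h : ℝ) ^ (k0 + 2) := one_le_pow₀ (by linarith)
  obtain ⟨A, M, hAW, hAn, hAk, hA2, hME, hMd, hWM, hPhi⟩ :=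
    iterate HH St (fun σ hσ => (hst σ hσ).2.2) W ((h : ℝ) ^ (k0 + 2)) h4n hnpos (by positivity)
      (3 * (N : ℝ) ^ 3) hC (by positivity) W.card W rfl subset_rfl le_rfl
      (by rw [← hn]; nlinarith) hstart ∅ (Finset.empty_subset _) (by simp) (by simp) (by simp)
  refine ⟨M, hME, hMd, ?_⟩
  intro σ hσ
  obtain ⟨C, -, -, hP⟩ := hC (A.card : ℝ) hAn hAk
  have hsub : σ \ M.biUnion vs ⊆ σ ∩ A := by
    intro x hx
    rw [Finset.mem_sdiff] at hx
    rw [Finset.mem_inter]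
    refine ⟨hx.1, ?_⟩
    by_contra hxA
    exact hx.2 (hWM (Finset.mem_sdiff.mpr ⟨(hst σ hσ).1 hx.1, hxA⟩))
  have hle : ((σ \ M.biUnion vs).card : ℝ) ≤ ((σ ∩ A).card : ℝ) := by
    exact_mod_cast Finset.card_le_card hsub
  refine hle.trans ?_
  have hterm : Real.exp (l * (n / (A.card : ℝ) * ((σ ∩ A).card : ℝ) / (N : ℝ) - 1 -
      eps (A.card : ℝ))) ≤ Real.exp (l * eps (A.card : ℝ)) := by
    refine le_trans ?_ (hPhi.trans hP)
    unfold Phi
    have h1 := Finset.single_le_sum (f := fun σ => Real.exp (l * (n / (A.card : ℝ) *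
      ((σ ∩ A).card : ℝ) / (N : ℝ) - 1 - eps (A.card : ℝ)))) (fun i _ => by positivity) hσ
    have h2 : 0 ≤ ∑ v ∈ A, (Real.exp (l * ((n / (A.card : ℝ)) ^ 3 * deg E vs w A v - 1 -
      eps (A.card : ℝ))) + Real.exp (l * (1 - (n / (A.card : ℝ)) ^ 3 * deg E vs w A v -
      eps (A.card : ℝ)))) := Finset.sum_nonneg (fun _ _ => by positivity)
    linarith
  have hY := le_of_mul_le_mul_left (Real.exp_le_exp.mp hterm) C.hl
  have hY2 : n / (A.card : ℝ) * ((σ ∩ A).card : ℝ) / (N : ℝ) ≤ 5 / 4 := by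
    have := C.hε8
    linarith
  have hapos : (0 : ℝ) < A.card := by linarith [C.ha]
  have hY3 : n * ((σ ∩ A).card : ℝ) ≤ 5 / 4 * N * (A.card : ℝ) := by
    rw [div_le_iff₀ hNpos, div_mul_eq_mul_div, div_le_iff₀ hapos] at hY2
    linarith
  rw [le_div_iff₀ (by positivity)]
  have hpow : (h : ℝ) ^ (k0 + 2) = (h : ℝ) ^ k0 * (h : ℝ) ^ 2 := pow_add _ _ _
  have hpk : 0 < (h : ℝ) ^ k0 := by positivity
  -- n * |σ∩A| * h^(k0+2) ≤ 5/4 N * (a h^(k0+2)) ≤ 5/2 N n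
  have hs1 : n * (((σ ∩ A).card : ℝ) * (h : ℝ) ^ (k0 + 2)) ≤ n * (5 / 2 * N) := by
    calc n * (((σ ∩ A).card : ℝ) * (h : ℝ) ^ (k0 + 2))
        = (n * ((σ ∩ A).card : ℝ)) * (h : ℝ) ^ (k0 + 2) := by ring
      _ ≤ (5 / 4 * N * (A.card : ℝ)) * (h : ℝ) ^ (k0 + 2) :=
          mul_le_mul_of_nonneg_right hY3 (by positivity)
      _ = 5 / 4 * N * ((A.card : ℝ) * (h : ℝ) ^ (k0 + 2)) := by ring
      _ ≤ 5 / 4 * N * (2 * n) := mul_le_mul_of_nonneg_left hA2 (by positivity)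
      _ = n * (5 / 2 * N) := by ring
  have hs2 := le_of_mul_le_mul_left hs1 hnpos
  rw [hpow] at hs2
  have hh2 : (4 : ℝ) ≤ (h : ℝ) ^ 2 := by nlinarith
  have hX0 : 0 ≤ ((σ ∩ A).card : ℝ) * (h : ℝ) ^ k0 := by positivity
  nlinarith

end H69NB
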