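import Pool.Agent.H69.NB.Comb
import Pool.Agent.H69.NB.Dbl
import Pool.Agent.H69.NB.ExpAvg

namespace H69NB

open Finset

variable {V ι : Type*} [DecidableEq V] [DecidableEq ι]

theorem low_step {N n l ε : ℝ} {E : Finset ι} {vs : ι → Finset V} {w : ι → ℝ} (H : Hyp N E vs w)
    (A : Finset V) (C : Cond N n l ε (A.card : ℝ))
    (hX : ∀ u ∈ A, |(n / (A.card : ℝ)) ^ 3 * deg E vs w A u - 1| ≤ 2 * ε)
    (ε' : ℝ) (hε' : ε + 200 * ε / (A.card : ℝ) ≤ ε') (v : V) (hv : v ∈ A) :
    ∑ f ∈ aln E vs A v, w f * Real.exp (l * (1 - (n / ((A.card : ℝ) - 4)) ^ 3 *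
        deg E vs w (A \ vs f) v - ε')) ≤
      tot E vs w A * (Real.exp (l * (1 - (n / (A.card : ℝ)) ^ 3 * deg E vs w A v - ε)) *
        Real.exp (l ^ 2 * QQ N n (A.card : ℝ))) := by
  obtain ⟨hN, hn, ha, hε, hε8, h12, h48, hl, hl1⟩ := C
  set a : ℝ := (A.card : ℝ) with ha_def
  set s : ℝ := (n / a) ^ 3 with hs_def
  set s' : ℝ := (n / (a - 4)) ^ 3 with hs'_def
  set x : ℝ := 4 / a with hx_def
  set D0 : ℝ := deg E vs w A v with hD0_def
  set T : ℝ := tot E vs w A with hT_def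
  clear_value x s s' D0 T a
  have ha0 : 0 < a := by linarith
  have ha4 : 0 < a - 4 := by linarith
  have hn0 : 0 < n := by linarith
  have hs0 : 0 < s := by rw [hs_def]; positivity
  have hs'0 : 0 < s' := by rw [hs'_def]; positivity
  have hx0 : 0 < x := by rw [hx_def]; positivity
  have hx25 : x ≤ 1 / 25 := by
    rw [hx_def, div_le_iff₀ ha0]
    linarith
  have hx3 : 3 * x ≤ ε := by
    have h : 3 * x = 12 / a := by rw [hx_def]; ring
    rw [h]
    exact h12
  have hss : s = s' * (1 - x) ^ 3 := by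
    rw [hs_def, hs'_def, hx_def]
    field_simp
  have hD0 : 0 ≤ D0 := by rw [hD0_def]; exact deg_nonneg H A v
  have hdeg : ∀ u ∈ A, (1 - 2 * ε) / s ≤ deg E vs w A u ∧ deg E vs w A u ≤ (1 + 2 * ε) / s := by
    intro u hu
    have h := abs_le.1 (hX u hu)
    constructor
    · rw [div_le_iff₀ hs0]
      linarith [h.1]
    · rw [le_div_iff₀ hs0]
      linarith [h.2]
  obtain ⟨τ, hτ_def⟩ : ∃ τ : ℝ, τ = 1 / s := ⟨_, rfl⟩
  have hτ0 : 0 < τ := by rw [hτ_def]; positivity
  have hdeg2 : ∀ u ∈ A, deg E vs w A u ≤ (1 + 2 * ε) * τ := by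
    intro u hu
    have h := (hdeg u hu).2
    rw [hτ_def]
    calc deg E vs w A u ≤ (1 + 2 * ε) / s := h
      _ = (1 + 2 * ε) * (1 / s) := by ring
  have hdeg1 : ∀ u ∈ A, (1 - 2 * ε) * τ ≤ deg E vs w A u := by
    intro u hu
    have h := (hdeg u hu).1
    rw [hτ_def]
    calc (1 - 2 * ε) * (1 / s) = (1 - 2 * ε) / s := by ring
      _ ≤ deg E vs w A u := h
  -- total weight
  have hT4 : a * ((1 - 2 * ε) * τ) ≤ 4 * T := by
    rw [hT_def, four_tot H A]
    have h := Finset.card_nsmul_le_sum A (fun u => deg E vs w A u) ((1 - 2 * ε) * τ) hdeg1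
    rw [nsmul_eq_mul, ← ha_def] at h
    exact h
  have hτT : (1 - 2 * ε) * τ ≤ x * T := by
    have h : x * T = (4 * T) / a := by rw [hx_def]; ring
    rw [h, le_div_iff₀ ha0]
    linarith
  have hT0 : 0 ≤ T := by
    have h1 : 0 ≤ (1 - 2 * ε) * τ := mul_nonneg (by linarith) hτ0.le
    have h2 : 0 ≤ x * T := le_trans h1 hτT
    by_contra hneg
    push Not at hneg
    have h3 : x * T < 0 := mul_neg_of_pos_of_neg hx0 hneg
    linarith
  have hxT0 : 0 ≤ x * T := mul_nonneg hx0.le hT0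
  have hτ1 : τ ≤ 4 / 3 * (x * T) := by
    have h : 3 / 4 * τ ≤ (1 - 2 * ε) * τ := mul_le_mul_of_nonneg_right (by linarith) hτ0.le
    linarith
  have hup1 : (1 + 2 * ε) * τ ≤ x * T + 16 / 3 * ε * (x * T) := by
    have h : 4 * ε * τ ≤ 4 * ε * (4 / 3 * (x * T)) :=
      mul_le_mul_of_nonneg_left hτ1 (by positivity)
    have h2 : (1 + 2 * ε) * τ = (1 - 2 * ε) * τ + 4 * ε * τ := by ring
    have h3 : 4 * ε * (4 / 3 * (x * T)) = 16 / 3 * ε * (x * T) := by ring
    linarith
  have hup2 : (1 + 2 * ε) * τ ≤ 5 / 3 * (x * T) := by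
    have h : (1 + 2 * ε) * τ ≤ 5 / 4 * τ := mul_le_mul_of_nonneg_right (by linarith) hτ0.le
    linarith
  have hD0T : D0 ≤ 5 / 3 * (x * T) := by rw [hD0_def]; exact le_trans (hdeg2 v hv) hup2
  -- P
  obtain ⟨P, hP_def⟩ : ∃ P : ℝ, P = s' * D0 := ⟨_, rfl⟩
  have hP0 : 0 ≤ P := by rw [hP_def]; exact mul_nonneg hs'0.le hD0
  have hq : (24 / 25 : ℝ) ^ 3 ≤ (1 - x) ^ 3 :=
    pow_le_pow_left₀ (by norm_num) (by linarith) 3
  have hP1 : P ≤ 3 / 2 := by
    have h1 : s * D0 = P * (1 - x) ^ 3 := by rw [hss, hP_def]; ring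
    have h2 : s * D0 ≤ 5 / 4 := by
      have h := (abs_le.1 (hX v hv)).2
      rw [← hD0_def] at h
      linarith
    have h3 : P * (24 / 25 : ℝ) ^ 3 ≤ P * (1 - x) ^ 3 := mul_le_mul_of_nonneg_left hq hP0
    norm_num at h3
    linarith
  have hyeq : (s' - s) * D0 = P * (3 * x - 3 * x ^ 2 + x ^ 3) := by
    rw [hss, hP_def]; ring
  have hpoly1 : 3 * x - 3 * x ^ 2 + x ^ 3 ≤ 3 * x := by
    have h : 0 ≤ x ^ 2 * (3 - x) := mul_nonneg (sq_nonneg x) (by linarith)
    linarith [h, (by ring : x ^ 2 * (3 - x) = 3 * x ^ 2 - x ^ 3)]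
  have hpoly2 : 3 * x * (1 - x) ≤ 3 * x - 3 * x ^ 2 + x ^ 3 := by
    have h : 0 ≤ x ^ 3 := by positivity
    linarith [h, (by ring : 3 * x * (1 - x) = 3 * x - 3 * x ^ 2)]
  have hy0 : 0 ≤ (s' - s) * D0 := by
    rw [hyeq]
    refine mul_nonneg hP0 (le_trans ?_ hpoly2)
    exact mul_nonneg (by positivity) (by linarith)
  have hy1 : (s' - s) * D0 ≤ 18 / a := by
    rw [hyeq]
    have h1 : P * (3 * x - 3 * x ^ 2 + x ^ 3) ≤ P * (3 * x) := mul_le_mul_of_nonneg_left hpoly1 hP0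
    have h2 : P * (3 * x) ≤ 3 / 2 * (3 * x) := mul_le_mul_of_nonneg_right hP1 (by positivity)
    have h3 : 3 / 2 * (3 * x) = 18 / a := by rw [hx_def]; ring
    linarith
  -- the sums
  have hwf : ∀ f ∈ aln E vs A v, 0 ≤ w f := fun f hf => H.w0 f (dbl_mem_aln.1 hf).1
  have hbb0 : ∀ f ∈ aln E vs A v, 0 ≤ bb E vs w A f v := fun f _ => bb_nonneg H A f v
  have hbb1 : ∀ f ∈ aln E vs A v, bb E vs w A f v ≤ 96 / N := fun f hf =>
    bb_le H A f (dbl_mem_aln.1 hf).1 v (dbl_mem_aln.1 hf).2.2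
  obtain ⟨B, hB_def⟩ : ∃ B : ℝ, B = ∑ f ∈ aln E vs A v, w f * bb E vs w A f v := ⟨_, rfl⟩
  have hB : B ≤ D0 * (3 * ((1 + 2 * ε) * τ)) := by
    rw [hB_def, hD0_def]
    exact sum_bb_le H A v ((1 + 2 * ε) * τ) hdeg2
  have hsum : ∑ f ∈ aln E vs A v, w f = T - D0 := by
    rw [hT_def, hD0_def]
    exact sum_aln A v
  have hTD : 0 ≤ T - D0 := by
    rw [← hsum]
    exact Finset.sum_nonneg hwf
  have hsB : s' * B ≤ P * (3 * ((1 + 2 * ε) * τ)) := by
    have h := mul_le_mul_of_nonneg_left hB hs'0.le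
    calc s' * B ≤ s' * (D0 * (3 * ((1 + 2 * ε) * τ))) := h
      _ = P * (3 * ((1 + 2 * ε) * τ)) := by rw [hP_def]; ring
  have hB0 : 0 ≤ B := by
    rw [hB_def]
    exact Finset.sum_nonneg fun f hf => mul_nonneg (hwf f hf) (hbb0 f hf)
  have hbracket : 3 * ((1 + 2 * ε) * τ) - (3 * x - 3 * x ^ 2 + x ^ 3) * (T - D0) ≤
      100 / 3 * (ε * (x * T)) := by
    have h1 : 3 * x * (1 - x) * (T - D0) ≤ (3 * x - 3 * x ^ 2 + x ^ 3) * (T - D0) :=
      mul_le_mul_of_nonneg_right hpoly2 hTD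
    have h2 : 3 * x * (1 - x) * D0 ≤ 3 * x * (5 / 3 * (x * T)) := by
      have h3 : 3 * x * (1 - x) ≤ 3 * x := by
        have h4 : 0 ≤ 3 * x * x := by positivity
        linarith [h4, (by ring : 3 * x * (1 - x) = 3 * x - 3 * x * x)]
      calc 3 * x * (1 - x) * D0 ≤ 3 * x * D0 := mul_le_mul_of_nonneg_right h3 hD0
        _ ≤ 3 * x * (5 / 3 * (x * T)) := mul_le_mul_of_nonneg_left hD0T (by positivity)
    have h5 : 3 * x * (1 - x) * (T - D0) = 3 * (x * T) - 3 * x * (x * T) - 3 * x * (1 - x) * D0 := by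
      ring
    have h6 : x * (x * T) ≤ ε / 3 * (x * T) := mul_le_mul_of_nonneg_right (by linarith) hxT0
    have h7 : 3 * x * (5 / 3 * (x * T)) = 5 * (x * (x * T)) := by ring
    have h8 : 3 * x * (x * T) = 3 * (x * (x * T)) := by ring
    have h9 : 0 ≤ ε * (x * T) := mul_nonneg hε.le hxT0
    have h10 : ε / 3 * (x * T) = 1 / 3 * (ε * (x * T)) := by ring
    have h11 : 16 / 3 * ε * (x * T) = 16 / 3 * (ε * (x * T)) := by ring
    rw [h10] at h6
    rw [h11] at hup1
    linarith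
  have hmain := exp_avg (aln E vs A v) w (fun f => s' * bb E vs w A f v - (s' - s) * D0) T l
    (ε' - ε) (QQ N n a) hwf hT0 hl.le ?_ ?_ ?_ ?_
  · -- conclusion
    have hrew : ∀ f ∈ aln E vs A v, w f * Real.exp (l * (1 - s' * deg E vs w (A \ vs f) v - ε')) =
        Real.exp (l * (1 - s * D0 - ε')) *
          (w f * Real.exp (l * (s' * bb E vs w A f v - (s' - s) * D0))) := by
      intro f hf
      rw [deg_step H A f v (dbl_mem_aln.1 hf).2.2]
      have h1 : l * (1 - s' * (deg E vs w A v - bb E vs w A f v) - ε') =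
          l * (1 - s * D0 - ε') + l * (s' * bb E vs w A f v - (s' - s) * D0) := by
        rw [← hD0_def]
        ring
      rw [h1, Real.exp_add]
      ring
    rw [Finset.sum_congr rfl hrew, ← Finset.mul_sum]
    calc Real.exp (l * (1 - s * D0 - ε')) *
          ∑ f ∈ aln E vs A v, w f * Real.exp (l * (s' * bb E vs w A f v - (s' - s) * D0))
        ≤ Real.exp (l * (1 - s * D0 - ε')) *
          (T * Real.exp (l * (ε' - ε) + l ^ 2 * QQ N n a)) :=
          mul_le_mul_of_nonneg_left hmain (Real.exp_pos _).le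
      _ = T * (Real.exp (l * (1 - s * D0 - ε)) * Real.exp (l ^ 2 * QQ N n a)) := by
          have h1 : Real.exp (l * (1 - s * D0 - ε')) * Real.exp (l * (ε' - ε) + l ^ 2 * QQ N n a) =
              Real.exp (l * (1 - s * D0 - ε)) * Real.exp (l ^ 2 * QQ N n a) := by
            rw [← Real.exp_add, ← Real.exp_add]
            congr 1
            ring
          calc Real.exp (l * (1 - s * D0 - ε')) *
                (T * Real.exp (l * (ε' - ε) + l ^ 2 * QQ N n a))
              = T * (Real.exp (l * (1 - s * D0 - ε')) *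
                Real.exp (l * (ε' - ε) + l ^ 2 * QQ N n a)) := by ring
            _ = _ := by rw [h1]
  · -- size
    intro f hf
    have h0 := hbb0 f hf
    have h1 := hbb1 f hf
    have h2 : s' * bb E vs w A f v ≤ 96 * s' / N := by
      calc s' * bb E vs w A f v ≤ s' * (96 / N) := mul_le_mul_of_nonneg_left h1 hs'0.le
        _ = 96 * s' / N := by ring
    have h3 : 0 ≤ s' * bb E vs w A f v := mul_nonneg hs'0.le h0
    have h4 : |s' * bb E vs w A f v - (s' - s) * D0| ≤ 18 / a + 96 * s' / N := by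
      have h18 : 0 ≤ 18 / a := by positivity
      have h96 : 0 ≤ 96 * s' / N := by positivity
      rw [abs_le]
      constructor
      · linarith
      · linarith
    calc |l * (s' * bb E vs w A f v - (s' - s) * D0)|
        = l * |s' * bb E vs w A f v - (s' - s) * D0| := by rw [abs_mul, abs_of_pos hl]
      _ ≤ l * (18 / a + 96 * s' / N) := mul_le_mul_of_nonneg_left h4 hl.le
      _ ≤ 1 := hl1
  · -- total
    rw [hsum]
    linarith
  · -- mean
    have h1 : ∑ f ∈ aln E vs A v, w f * (s' * bb E vs w A f v - (s' - s) * D0) =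
        s' * B - (s' - s) * D0 * (T - D0) := by
      rw [← hsum, hB_def, Finset.mul_sum, Finset.mul_sum, ← Finset.sum_sub_distrib]
      refine Finset.sum_congr rfl fun f _ => ?_
      ring
    rw [h1, hyeq]
    have h2 : P * (3 * x - 3 * x ^ 2 + x ^ 3) * (T - D0) =
        P * ((3 * x - 3 * x ^ 2 + x ^ 3) * (T - D0)) := by ring
    have h3 : P * (3 * ((1 + 2 * ε) * τ) - (3 * x - 3 * x ^ 2 + x ^ 3) * (T - D0)) ≤
        P * (100 / 3 * (ε * (x * T))) := mul_le_mul_of_nonneg_left hbracket hP0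
    have h4 : P * (100 / 3 * (ε * (x * T))) ≤ 3 / 2 * (100 / 3 * (ε * (x * T))) := by
      refine mul_le_mul_of_nonneg_right hP1 ?_
      exact mul_nonneg (by norm_num) (mul_nonneg hε.le hxT0)
    have h5 : 3 / 2 * (100 / 3 * (ε * (x * T))) = T * (200 * ε / a) := by
      rw [hx_def]; ring
    have h6 : T * (200 * ε / a) ≤ T * (ε' - ε) :=
      mul_le_mul_of_nonneg_left (by linarith) hT0
    have h7 : P * (3 * ((1 + 2 * ε) * τ) - (3 * x - 3 * x ^ 2 + x ^ 3) * (T - D0)) =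
        P * (3 * ((1 + 2 * ε) * τ)) - P * ((3 * x - 3 * x ^ 2 + x ^ 3) * (T - D0)) := by ring
    rw [h2]
    linarith
  · -- second moment
    have hsq : ∀ f ∈ aln E vs A v, w f * (s' * bb E vs w A f v - (s' - s) * D0) ^ 2 ≤
        96 * s' / N * s' * (w f * bb E vs w A f v) + (18 / a) ^ 2 * w f := by
      intro f hf
      have h0 := hbb0 f hf
      have h1 := hbb1 f hf
      have hw := hwf f hf
      have h3 : 0 ≤ s' * bb E vs w A f v := mul_nonneg hs'0.le h0
      have h2 : s' * bb E vs w A f v ≤ 96 * s' / N := by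
        calc s' * bb E vs w A f v ≤ s' * (96 / N) := mul_le_mul_of_nonneg_left h1 hs'0.le
          _ = 96 * s' / N := by ring
      have h4 : (s' * bb E vs w A f v - (s' - s) * D0) ^ 2 ≤
          96 * s' / N * (s' * bb E vs w A f v) + (18 / a) ^ 2 := by
        have h5 : (s' * bb E vs w A f v) ^ 2 ≤ 96 * s' / N * (s' * bb E vs w A f v) := by
          rw [sq]
          exact mul_le_mul_of_nonneg_right h2 h3
        have h6 : ((s' - s) * D0) ^ 2 ≤ (18 / a) ^ 2 := pow_le_pow_left₀ hy0 hy1 2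
        have h7 : 0 ≤ s' * bb E vs w A f v * ((s' - s) * D0) := mul_nonneg h3 hy0
        have h8 : (s' * bb E vs w A f v - (s' - s) * D0) ^ 2 =
            (s' * bb E vs w A f v) ^ 2 + ((s' - s) * D0) ^ 2 -
              2 * (s' * bb E vs w A f v * ((s' - s) * D0)) := by ring
        rw [h8]
        linarith
      calc w f * (s' * bb E vs w A f v - (s' - s) * D0) ^ 2
          ≤ w f * (96 * s' / N * (s' * bb E vs w A f v) + (18 / a) ^ 2) :=
            mul_le_mul_of_nonneg_left h4 hw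
        _ = _ := by ring
    have h1 : ∑ f ∈ aln E vs A v, w f * (s' * bb E vs w A f v - (s' - s) * D0) ^ 2 ≤
        96 * s' / N * (s' * B) + (18 / a) ^ 2 * (T - D0) := by
      calc _ ≤ ∑ f ∈ aln E vs A v,
            (96 * s' / N * s' * (w f * bb E vs w A f v) + (18 / a) ^ 2 * w f) :=
            Finset.sum_le_sum hsq
        _ = 96 * s' / N * (s' * B) + (18 / a) ^ 2 * (T - D0) := by
            rw [Finset.sum_add_distrib, ← Finset.mul_sum, ← Finset.mul_sum, hsum, ← hB_def]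
            ring
    refine le_trans h1 ?_
    have h2 : s' * B ≤ 15 / 2 * (x * T) := by
      have h3 : P * (3 * ((1 + 2 * ε) * τ)) ≤ P * (3 * (5 / 3 * (x * T))) :=
        mul_le_mul_of_nonneg_left (by linarith) hP0
      have h4 : P * (3 * (5 / 3 * (x * T))) ≤ 3 / 2 * (3 * (5 / 3 * (x * T))) :=
        mul_le_mul_of_nonneg_right hP1 (by linarith)
      linarith
    have h96 : 0 ≤ 96 * s' / N := by positivity
    have h5 : 96 * s' / N * (s' * B) ≤ 96 * s' / N * (15 / 2 * (x * T)) :=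
      mul_le_mul_of_nonneg_left h2 h96
    have h6 : (18 / a) ^ 2 * (T - D0) ≤ (18 / a) ^ 2 * T :=
      mul_le_mul_of_nonneg_left (by linarith) (sq_nonneg _)
    have h7 : 96 * s' / N * (15 / 2 * (x * T)) = T * (2880 * s' / N / a) := by
      rw [hx_def]; ring
    have h8 : (18 / a) ^ 2 * T = T * (324 / a / a) := by ring
    have h9 : QQ N n a = 648 / a / a + 5760 * s' / N / a := by
      unfold QQ
      rw [← hs'_def]
      ring
    have h10 : T * (2880 * s' / N / a) + T * (324 / a / a) ≤ T * QQ N n a := by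
      rw [h9, ← mul_add]
      refine mul_le_mul_of_nonneg_left ?_ hT0
      have h11 : 0 ≤ 324 / a / a := by positivity
      have h12' : 0 ≤ 2880 * s' / N / a := by positivity
      have h13 : 648 / a / a = 2 * (324 / a / a) := by ring
      have h14 : 5760 * s' / N / a = 2 * (2880 * s' / N / a) := by ring
      linarith
    linarith

end H69NB
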