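import Pool.Agent.H69.NB.Comb
import Pool.Agent.H69.NB.ExpAvg

namespace H69NB

open Finset

variable {V ι : Type*} [DecidableEq V] [DecidableEq ι]

theorem star_sum {E : Finset ι} {vs : ι → Finset V} {w : ι → ℝ} (A σ : Finset V) :
    ∑ f ∈ al E vs A, w f * (((σ ∩ vs f).card : ℕ) : ℝ) = ∑ v ∈ σ ∩ A, deg E vs w A v := by
  unfold deg alv
  simp_rw [Finset.sum_filter]
  rw [Finset.sum_comm]
  apply Finset.sum_congr rfl
  intro f hf
  have hfA : vs f ⊆ A := (Finset.mem_filter.1 hf).2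
  rw [← Finset.sum_filter, Finset.sum_const, nsmul_eq_mul, mul_comm]
  congr 2
  congr 1
  ext v
  simp only [Finset.mem_inter, Finset.mem_filter]
  constructor
  · rintro ⟨h1, h2⟩
    exact ⟨⟨h1, hfA h2⟩, h2⟩
  · rintro ⟨⟨h1, _⟩, h2⟩
    exact ⟨h1, h2⟩

theorem star_card {E : Finset ι} {vs : ι → Finset V} (A σ : Finset V) (f : ι)
    (hf : f ∈ al E vs A) :
    (((σ ∩ (A \ vs f)).card : ℕ) : ℝ) = ((σ ∩ A).card : ℝ) - ((σ ∩ vs f).card : ℝ) := by
  have hfA : vs f ⊆ A := (Finset.mem_filter.1 hf).2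
  have h1 : σ ∩ (A \ vs f) = (σ ∩ A) \ (σ ∩ vs f) := by
    ext v
    simp only [Finset.mem_inter, Finset.mem_sdiff]
    tauto
  have h2 : σ ∩ vs f ⊆ σ ∩ A := Finset.inter_subset_inter_left hfA
  have h3 := Finset.card_sdiff_add_card_eq_card h2
  rw [h1]
  have : (((σ ∩ A) \ (σ ∩ vs f)).card : ℝ) + ((σ ∩ vs f).card : ℝ) = ((σ ∩ A).card : ℝ) := by
    exact_mod_cast h3
  linarith

theorem star_sq (x y δ : ℝ) (h0 : 0 ≤ δ) (h1 : δ ≤ 1) :
    (x - y * δ) ^ 2 ≤ 2 * x ^ 2 + 2 * y ^ 2 * δ := by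
  have h2 : (x - y * δ) ^ 2 ≤ 2 * x ^ 2 + 2 * (y * δ) ^ 2 := by
    nlinarith [sq_nonneg (x + y * δ)]
  have h3 : δ ^ 2 ≤ δ := by nlinarith
  have h4 : (y * δ) ^ 2 ≤ y ^ 2 * δ := by
    rw [mul_pow]
    exact mul_le_mul_of_nonneg_left h3 (by positivity)
  linarith

theorem star_qq (N n a s T : ℝ) (hN : 0 < N) (ha : 0 < a) : s * (T * QQ N n a) =
    648 / a ^ 2 * (s * T) + 5760 * (n / (a - 4)) ^ 3 / N / a * (s * T) := by
  unfold QQ
  generalize (n / (a - 4)) ^ 3 = s'
  field_simp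

theorem star_second (x y a ε P t L sW N : ℝ) (hx0 : 0 ≤ x) (hx : x ≤ 6 / a) (ha : 0 < a) (hN : 0 < N)
    (hε : 0 < ε) (hε8 : ε ≤ 1 / 8) (ht : 0 ≤ t) (hy : 0 ≤ y) (s'N : ℝ) (hys : y ≤ s'N)
    (hP : P ≤ 4 / 3) (hPL : y * L = P)
    (hW : sW ≤ L * (1 + 2 * ε)) (htl : a * (1 - 2 * ε) ≤ 4 * t) :
    2 * x ^ 2 * t + 2 * y ^ 2 * sW ≤ 648 / a ^ 2 * t + 5760 * s'N / a * t := by
  have hs0 : 0 ≤ s'N := hy.trans hys
  have h4 : 2 * y ^ 2 * sW ≤ 4 * s'N := by
    calc 2 * y ^ 2 * sW ≤ 2 * y ^ 2 * (L * (1 + 2 * ε)) :=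
          mul_le_mul_of_nonneg_left hW (by positivity)
      _ = 2 * y * (P * (1 + 2 * ε)) := by rw [← hPL]; ring
      _ ≤ 2 * y * (4 / 3 * (5 / 4)) := by
          apply mul_le_mul_of_nonneg_left _ (by positivity)
          apply mul_le_mul hP (by linarith) (by linarith) (by norm_num)
      _ ≤ 4 * s'N := by linarith
  have h5 : 2 * x ^ 2 ≤ 648 / a ^ 2 := by
    have h6 : x ^ 2 ≤ (6 / a) ^ 2 := pow_le_pow_left₀ hx0 hx 2
    have h7 : 2 * (6 / a) ^ 2 ≤ 648 / a ^ 2 := by
      rw [div_pow]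
      have : 2 * ((6 : ℝ) ^ 2 / a ^ 2) = 72 / a ^ 2 := by ring
      rw [this]
      exact div_le_div_of_nonneg_right (by norm_num) (by positivity)
    linarith
  have h9 : 2 * x ^ 2 * t ≤ 648 / a ^ 2 * t := mul_le_mul_of_nonneg_right h5 ht
  have h10 : 4 * s'N ≤ 5760 * s'N / a * t := by
    have h11 : 5760 * s'N / a * (a * (1 - 2 * ε) / 4) ≤ 5760 * s'N / a * t := by
      apply mul_le_mul_of_nonneg_left _ (by positivity)
      linarith
    have h12' : 5760 * s'N / a * (a * (1 - 2 * ε) / 4) = 1440 * s'N * (1 - 2 * ε) := by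
      field_simp
      ring
    have h14 : 4 * s'N ≤ 1440 * s'N * (1 - 2 * ε) := by
      nlinarith [mul_nonneg hs0 (by linarith : (0 : ℝ) ≤ 1 / 8 - ε)]
    linarith
  linarith

theorem star_step {N n l ε : ℝ} {E : Finset ι} {vs : ι → Finset V} {w : ι → ℝ} (H : Hyp N E vs w)
    (A : Finset V) (C : Cond N n l ε (A.card : ℝ))
    (hX : ∀ u ∈ A, |(n / (A.card : ℝ)) ^ 3 * deg E vs w A u - 1| ≤ 2 * ε)
    (ε' : ℝ) (hε' : ε + 200 * ε / (A.card : ℝ) ≤ ε') (σ : Finset V)
    (hσ : ∀ e ∈ E, (vs e ∩ σ).card ≤ 1)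
    (hY : n / (A.card : ℝ) * ((σ ∩ A).card : ℝ) / N ≤ 1 + 2 * ε) :
    ∑ f ∈ al E vs A, w f * Real.exp (l * (n / ((A.card : ℝ) - 4) *
        ((σ ∩ (A \ vs f)).card : ℝ) / N - 1 - ε')) ≤
      tot E vs w A * (Real.exp (l * (n / (A.card : ℝ) * ((σ ∩ A).card : ℝ) / N - 1 - ε)) *
        Real.exp (l ^ 2 * QQ N n (A.card : ℝ))) := by
  obtain ⟨hN, hn, ha, hε, hε8, h12, h48, hl, hl1⟩ := C
  set a : ℝ := (A.card : ℝ) with ha_def
  set L : ℝ := ((σ ∩ A).card : ℝ) with hL_def
  set T : ℝ := tot E vs w A with hT_def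
  have hL0 : 0 ≤ L := Nat.cast_nonneg _
  have ha0 : 0 < a := by linarith
  have ha4 : 0 < a - 4 := by linarith
  have hn0 : 0 < n := by linarith
  set s : ℝ := (n / a) ^ 3 with hs_def
  have hs0 : 0 < s := by positivity
  set n' : ℝ := n / (a - 4) with hn'_def
  have hn'1 : 1 ≤ n' := by
    rw [hn'_def, le_div_iff₀ ha4]
    linarith
  have hn'0 : 0 < n' := by linarith
  set s' : ℝ := n' ^ 3 with hs'_def
  have hs'0 : 0 < s' := by positivity
  have hns : n' ≤ s' := by
    rw [hs'_def]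
    nlinarith [mul_le_mul_of_nonneg_left hn'1 hn'0.le, sq_nonneg n']
  set P : ℝ := n' * L / N with hP_def
  have hP0 : 0 ≤ P := by positivity
  have hP : P ≤ 4 / 3 := by
    have h1 : P = a / (a - 4) * (n / a * L / N) := by
      rw [hP_def, hn'_def]
      field_simp
    have h2 : a / (a - 4) ≤ 16 / 15 := by
      rw [div_le_div_iff₀ ha4 (by norm_num)]
      linarith
    rw [h1]
    calc a / (a - 4) * (n / a * L / N) ≤ 16 / 15 * (5 / 4) := by
          apply mul_le_mul h2 (by linarith) (by positivity) (by norm_num)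
      _ = 4 / 3 := by norm_num
  -- degrees
  have hdlow : ∀ u ∈ A, 1 - 2 * ε ≤ s * deg E vs w A u := fun u hu => by
    have := (abs_le.1 (hX u hu)).1
    linarith
  have hdup : ∀ u ∈ A, s * deg E vs w A u ≤ 1 + 2 * ε := fun u hu => by
    have := (abs_le.1 (hX u hu)).2
    linarith
  have h4T := four_tot H A
  rw [← hT_def] at h4T
  have htlow : a * (1 - 2 * ε) ≤ 4 * (s * T) := by
    have : ∑ v ∈ A, (1 - 2 * ε) ≤ ∑ v ∈ A, s * deg E vs w A v := Finset.sum_le_sum hdlow
    rw [Finset.sum_const, nsmul_eq_mul, ← Finset.mul_sum, ← h4T] at this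
    linarith
  have hsum := star_sum (E := E) (vs := vs) (w := w) A σ
  set W : ℝ := ∑ v ∈ σ ∩ A, deg E vs w A v with hW_def
  have htup : 4 * (s * T) ≤ a * (1 + 2 * ε) := by
    have : ∑ v ∈ A, s * deg E vs w A v ≤ ∑ v ∈ A, (1 + 2 * ε) := Finset.sum_le_sum hdup
    rw [Finset.sum_const, nsmul_eq_mul, ← Finset.mul_sum, ← h4T] at this
    linarith
  have hWlow : L * (1 - 2 * ε) ≤ s * W := by
    have : ∑ v ∈ σ ∩ A, (1 - 2 * ε) ≤ ∑ v ∈ σ ∩ A, s * deg E vs w A v :=
      Finset.sum_le_sum fun v hv => hdlow v (Finset.mem_inter.1 hv).2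
    rw [Finset.sum_const, nsmul_eq_mul, ← Finset.mul_sum] at this
    exact this
  have hWup : s * W ≤ L * (1 + 2 * ε) := by
    have : ∑ v ∈ σ ∩ A, s * deg E vs w A v ≤ ∑ v ∈ σ ∩ A, (1 + 2 * ε) :=
      Finset.sum_le_sum fun v hv => hdup v (Finset.mem_inter.1 hv).2
    rw [Finset.sum_const, nsmul_eq_mul, ← Finset.mul_sum] at this
    exact this
  have hw0 : ∀ f ∈ al E vs A, 0 ≤ w f := fun f hf => H.w0 f (Finset.mem_filter.1 hf).1
  have hT0 : 0 ≤ T := Finset.sum_nonneg hw0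
  -- the increments
  set δ : ι → ℝ := fun f => ((σ ∩ vs f).card : ℝ) with hδ_def
  have hδ0 : ∀ f, 0 ≤ δ f := fun f => Nat.cast_nonneg _
  have hδ1 : ∀ f ∈ al E vs A, δ f ≤ 1 := by
    intro f hf
    have := hσ f (Finset.mem_filter.1 hf).1
    rw [Finset.inter_comm] at this
    simp only [hδ_def]
    exact_mod_cast this
  set Δ : ι → ℝ := fun f => 4 * P / a - n' / N * δ f with hΔ_def
  have hPa : 4 * P / a ≤ 6 / a := by
    apply div_le_div_of_nonneg_right _ ha0.le
    linarith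
  have hPa0 : 0 ≤ 4 * P / a := by positivity
  have hnN : 0 ≤ n' / N := by positivity
  have hnN' : n' / N ≤ s' / N := div_le_div_of_nonneg_right hns hN.le
  have key : ∑ f ∈ al E vs A, w f * Real.exp (l * Δ f) ≤
      T * Real.exp (l * (ε' - ε) + l ^ 2 * QQ N n a) := by
    apply exp_avg _ _ _ _ _ _ _ hw0 hT0 hl.le
    · intro f hf
      rw [abs_mul, abs_of_pos hl]
      refine le_trans (mul_le_mul_of_nonneg_left ?_ hl.le) hl1
      have h1 : |Δ f| ≤ 6 / a + s' / N := by
        rw [abs_le]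
        have h2 : n' / N * δ f ≤ s' / N := by
          calc n' / N * δ f ≤ n' / N * 1 := mul_le_mul_of_nonneg_left (hδ1 f hf) hnN
            _ ≤ s' / N := by rw [mul_one]; exact hnN'
        have h3 : 0 ≤ n' / N * δ f := mul_nonneg hnN (hδ0 f)
        have h4 : 0 ≤ 6 / a := by positivity
        have h5 : 0 ≤ s' / N := by positivity
        simp only [hΔ_def]
        constructor <;> linarith
      have h6 : 6 / a ≤ 18 / a := div_le_div_of_nonneg_right (by norm_num) ha0.le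
      have h7 : s' / N ≤ 96 * s' / N := by
        apply div_le_div_of_nonneg_right _ hN.le
        linarith
      linarith
    · exact le_refl T
    · -- mean
      have h1 : ∑ f ∈ al E vs A, w f * Δ f = 4 * P / a * T - n' / N * W := by
        simp only [hΔ_def, mul_sub, Finset.sum_sub_distrib]
        rw [← Finset.sum_mul, mul_comm]
        congr 1
        rw [← hsum, Finset.mul_sum]
        apply Finset.sum_congr rfl
        intro f _
        ring
      rw [h1]
      have h2 : 200 * ε / a ≤ ε' - ε := by linarith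
      refine le_trans ?_ (mul_le_mul_of_nonneg_left h2 hT0)
      -- multiply by s
      have h3 : s * (4 * P / a * T - n' / N * W) ≤ s * (T * (200 * ε / a)) := by
        have h4 : s * (4 * P / a * T) ≤ P * (1 + 2 * ε) := by
          have : s * (4 * P / a * T) = P / a * (4 * (s * T)) := by ring
          rw [this]
          calc P / a * (4 * (s * T)) ≤ P / a * (a * (1 + 2 * ε)) :=
                mul_le_mul_of_nonneg_left htup (by positivity)
            _ = P * (1 + 2 * ε) := by field_simp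
        have h5 : P * (1 - 2 * ε) ≤ s * (n' / N * W) := by
          have : s * (n' / N * W) = n' / N * (s * W) := by ring
          rw [this]
          calc P * (1 - 2 * ε) = n' / N * (L * (1 - 2 * ε)) := by rw [hP_def]; ring
            _ ≤ _ := mul_le_mul_of_nonneg_left hWlow hnN
        have h6 : s * (T * (200 * ε / a)) = 50 * ε / a * (4 * (s * T)) := by ring
        have h7 : 50 * ε * (1 - 2 * ε) ≤ s * (T * (200 * ε / a)) := by
          rw [h6]
          calc 50 * ε * (1 - 2 * ε) = 50 * ε / a * (a * (1 - 2 * ε)) := by field_simp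
            _ ≤ _ := mul_le_mul_of_nonneg_left htlow (by positivity)
        have h8 : P * (1 + 2 * ε) - P * (1 - 2 * ε) ≤ 50 * ε * (1 - 2 * ε) := by
          nlinarith [mul_le_mul_of_nonneg_right hP hε.le]
        rw [mul_sub]
        linarith
      exact le_of_mul_le_mul_left h3 hs0
    · -- second moment
      have h1 : ∑ f ∈ al E vs A, w f * (Δ f) ^ 2 ≤ 2 * (4 * P / a) ^ 2 * T +
          2 * (n' / N) ^ 2 * W := by
        rw [← hsum, hT_def]
        unfold tot
        rw [Finset.mul_sum, Finset.mul_sum, ← Finset.sum_add_distrib]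
        apply Finset.sum_le_sum
        intro f hf
        have h2 : (Δ f) ^ 2 ≤ 2 * (4 * P / a) ^ 2 + 2 * (n' / N) ^ 2 * δ f :=
          star_sq _ _ _ (hδ0 f) (hδ1 f hf)
        have h3 := mul_le_mul_of_nonneg_left h2 (hw0 f hf)
        refine h3.trans (le_of_eq ?_)
        simp only [hδ_def]
        ring
      refine h1.trans ?_
      have h3 : s * (2 * (4 * P / a) ^ 2 * T + 2 * (n' / N) ^ 2 * W) ≤ s * (T * QQ N n a) := by
        have h8 : 0 ≤ s * T := mul_nonneg hs0.le hT0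
        have h10 := star_second (4 * P / a) (n' / N) a ε P (s * T) L (s * W) N hPa0 hPa ha0 hN hε
          hε8 h8 hnN (s' / N) hnN' hP (by rw [hP_def]; ring) hWup htlow
        rw [star_qq N n a s T hN ha0]
        have h16 : s * (2 * (4 * P / a) ^ 2 * T + 2 * (n' / N) ^ 2 * W) =
            2 * (4 * P / a) ^ 2 * (s * T) + 2 * (n' / N) ^ 2 * (s * W) := by ring
        rw [h16]
        have h17 : 5760 * (n / (a - 4)) ^ 3 / N / a = 5760 * (s' / N) / a := by
          rw [hs'_def, hn'_def]; ring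
        rw [h17]
        exact h10
      exact le_of_mul_le_mul_left h3 hs0
  -- conclusion
  have hfin : ∀ f ∈ al E vs A, w f * Real.exp (l * (n' * ((σ ∩ (A \ vs f)).card : ℝ) / N - 1 - ε')) =
      Real.exp (l * (n / a * L / N - 1 - ε)) * Real.exp (- (l * (ε' - ε))) *
        (w f * Real.exp (l * Δ f)) := by
    intro f hf
    have h1 : Real.exp (l * (n / a * L / N - 1 - ε)) * Real.exp (- (l * (ε' - ε))) *
        (w f * Real.exp (l * Δ f)) = w f * (Real.exp (l * (n / a * L / N - 1 - ε)) *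
        Real.exp (- (l * (ε' - ε))) * Real.exp (l * Δ f)) := by ring
    rw [h1, ← Real.exp_add, ← Real.exp_add, star_card A σ f hf]
    congr 2
    have h2 : 4 * P / a = n' * L / N - n / a * L / N := by
      rw [hP_def, hn'_def]
      field_simp
      ring
    simp only [hΔ_def, hδ_def]
    rw [h2]
    ring
  rw [Finset.sum_congr rfl hfin, ← Finset.mul_sum]
  calc Real.exp (l * (n / a * L / N - 1 - ε)) * Real.exp (- (l * (ε' - ε))) *
        ∑ f ∈ al E vs A, w f * Real.exp (l * Δ f)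
      ≤ Real.exp (l * (n / a * L / N - 1 - ε)) * Real.exp (- (l * (ε' - ε))) *
        (T * Real.exp (l * (ε' - ε) + l ^ 2 * QQ N n a)) :=
        mul_le_mul_of_nonneg_left key (by positivity)
    _ = T * (Real.exp (l * (n / a * L / N - 1 - ε)) * Real.exp (l ^ 2 * QQ N n a)) := by
        rw [Real.exp_add, Real.exp_neg]
        field_simp

end H69NB
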