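import Pool.Agent.H69.NB.Up
import Pool.Agent.H69.NB.Low
import Pool.Agent.H69.NB.Star

namespace H69NB

open Finset

variable {V ι : Type*} [DecidableEq V] [DecidableEq ι]

theorem tot_pos_of {N n l ε : ℝ} {E : Finset ι} {vs : ι → Finset V} {w : ι → ℝ}
    (H : Hyp N E vs w) (A : Finset V) (C : Cond N n l ε (A.card : ℝ))
    (hX : ∀ u ∈ A, |(n / (A.card : ℝ)) ^ 3 * deg E vs w A u - 1| ≤ 2 * ε) :
    0 < tot E vs w A := by
  have h4 := four_tot H A
  have ha : (0 : ℝ) < A.card := by linarith [C.ha]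
  have hn : 0 < n := lt_of_lt_of_le ha C.hn
  have hs : 0 < (n / (A.card : ℝ)) ^ 3 := by positivity
  have hpos : ∀ u ∈ A, 0 < deg E vs w A u := by
    intro u hu
    have h1 := (abs_le.mp (hX u hu)).1
    have h8 := C.hε8
    have h2 : 0 < (n / (A.card : ℝ)) ^ 3 * deg E vs w A u := by linarith
    exact (pos_iff_pos_of_mul_pos h2).mp hs
  have hne : A.Nonempty := by
    rw [← Finset.card_pos]
    exact_mod_cast ha
  have := Finset.sum_pos hpos hne
  linarith

theorem one_step {N n l : ℝ} {eps : ℝ → ℝ} {E : Finset ι} {vs : ι → Finset V} {w : ι → ℝ}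
    (H : Hyp N E vs w) (St : Finset (Finset V)) (hSt : ∀ σ ∈ St, ∀ e ∈ E, (vs e ∩ σ).card ≤ 1)
    (A : Finset V) (C : Cond N n l (eps (A.card : ℝ)) (A.card : ℝ))
    (hg : eps (A.card : ℝ) + 200 * eps (A.card : ℝ) / (A.card : ℝ) ≤ eps ((A.card : ℝ) - 4))
    (hPhi : Phi N n l eps E vs w St A ≤ Real.exp (l * eps (A.card : ℝ))) :
    ∃ f ∈ al E vs A, Phi N n l eps E vs w St (A \ vs f) ≤
      Phi N n l eps E vs w St A * Real.exp (l ^ 2 * QQ N n (A.card : ℝ)) := by
  have hl := C.hl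
  -- consequences of the bound on the potential
  have hterm1 : ∀ v ∈ A, (Real.exp (l * ((n / (A.card : ℝ)) ^ 3 * deg E vs w A v - 1 -
      eps (A.card : ℝ))) + Real.exp (l * (1 - (n / (A.card : ℝ)) ^ 3 * deg E vs w A v -
      eps (A.card : ℝ)))) ≤ Real.exp (l * eps (A.card : ℝ)) := by
    intro v hv
    refine le_trans ?_ hPhi
    unfold Phi
    have h1 := Finset.single_le_sum (f := fun v => (Real.exp (l * ((n / (A.card : ℝ)) ^ 3 *
      deg E vs w A v - 1 - eps (A.card : ℝ))) + Real.exp (l * (1 - (n / (A.card : ℝ)) ^ 3 *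
      deg E vs w A v - eps (A.card : ℝ))))) (fun i _ => by positivity) hv
    have h2 : 0 ≤ ∑ σ ∈ St, Real.exp (l * (n / (A.card : ℝ) * ((σ ∩ A).card : ℝ) / N - 1 -
      eps (A.card : ℝ))) := Finset.sum_nonneg (fun _ _ => by positivity)
    linarith
  have hterm2 : ∀ σ ∈ St, Real.exp (l * (n / (A.card : ℝ) * ((σ ∩ A).card : ℝ) / N - 1 -
      eps (A.card : ℝ))) ≤ Real.exp (l * eps (A.card : ℝ)) := by
    intro σ hσ
    refine le_trans ?_ hPhi
    unfold Phi
    have h1 := Finset.single_le_sum (f := fun σ => Real.exp (l * (n / (A.card : ℝ) *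
      ((σ ∩ A).card : ℝ) / N - 1 - eps (A.card : ℝ)))) (fun i _ => by positivity) hσ
    have h2 : 0 ≤ ∑ v ∈ A, (Real.exp (l * ((n / (A.card : ℝ)) ^ 3 * deg E vs w A v - 1 -
      eps (A.card : ℝ))) + Real.exp (l * (1 - (n / (A.card : ℝ)) ^ 3 * deg E vs w A v -
      eps (A.card : ℝ)))) := Finset.sum_nonneg (fun _ _ => by positivity)
    linarith
  have hX : ∀ u ∈ A, |(n / (A.card : ℝ)) ^ 3 * deg E vs w A u - 1| ≤ 2 * eps (A.card : ℝ) := by
    intro u hu
    have h := hterm1 u hu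
    have e1 : Real.exp (l * ((n / (A.card : ℝ)) ^ 3 * deg E vs w A u - 1 - eps (A.card : ℝ))) ≤
        Real.exp (l * eps (A.card : ℝ)) := by
      have := Real.exp_pos (l * (1 - (n / (A.card : ℝ)) ^ 3 * deg E vs w A u - eps (A.card : ℝ)))
      linarith
    have e2 : Real.exp (l * (1 - (n / (A.card : ℝ)) ^ 3 * deg E vs w A u - eps (A.card : ℝ))) ≤
        Real.exp (l * eps (A.card : ℝ)) := by
      have := Real.exp_pos (l * ((n / (A.card : ℝ)) ^ 3 * deg E vs w A u - 1 - eps (A.card : ℝ)))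
      linarith
    have f1 := le_of_mul_le_mul_left (Real.exp_le_exp.mp e1) hl
    have f2 := le_of_mul_le_mul_left (Real.exp_le_exp.mp e2) hl
    rw [abs_le]
    constructor <;> linarith
  have hYs : ∀ σ ∈ St, n / (A.card : ℝ) * ((σ ∩ A).card : ℝ) / N ≤ 1 + 2 * eps (A.card : ℝ) := by
    intro σ hσ
    have f1 := le_of_mul_le_mul_left (Real.exp_le_exp.mp (hterm2 σ hσ)) hl
    linarith
  have hD := tot_pos_of H A C hX
  -- average over f
  by_contra hcon
  push Not at hcon
  set K : ℝ := Real.exp (l ^ 2 * QQ N n (A.card : ℝ)) with hK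
  have hcard : ∀ f ∈ al E vs A, ((A \ vs f).card : ℝ) = (A.card : ℝ) - 4 := by
    intro f hf
    have hf' := Finset.mem_filter.mp hf
    rw [Finset.card_sdiff_of_subset hf'.2, H.card4 f hf'.1]
    have h4 : 4 ≤ A.card := by
      rw [← H.card4 f hf'.1]
      exact Finset.card_le_card hf'.2
    push_cast [h4]
    ring
  -- there is an alive edge with positive weight
  have hex : ∃ f ∈ al E vs A, 0 < w f := by
    by_contra h
    push Not at h
    have : tot E vs w A ≤ 0 := Finset.sum_nonpos h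
    linarith
  obtain ⟨f0, hf0, hwf0⟩ := hex
  have hlt : ∑ f ∈ al E vs A, w f * (Phi N n l eps E vs w St A * K) <
      ∑ f ∈ al E vs A, w f * Phi N n l eps E vs w St (A \ vs f) := by
    apply Finset.sum_lt_sum
    · intro f hf
      exact mul_le_mul_of_nonneg_left (hcon f hf).le (H.w0 f (Finset.mem_filter.mp hf).1)
    · exact ⟨f0, hf0, mul_lt_mul_of_pos_left (hcon f0 hf0) hwf0⟩
  have hle : ∑ f ∈ al E vs A, w f * Phi N n l eps E vs w St (A \ vs f) ≤
      tot E vs w A * (Phi N n l eps E vs w St A * K) := by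
    have hrw : ∀ f ∈ al E vs A, w f * Phi N n l eps E vs w St (A \ vs f) =
        (∑ v ∈ A, if v ∉ vs f then w f * Real.exp (l * ((n / ((A.card : ℝ) - 4)) ^ 3 *
          deg E vs w (A \ vs f) v - 1 - eps ((A.card : ℝ) - 4))) else 0) +
        (∑ v ∈ A, if v ∉ vs f then w f * Real.exp (l * (1 - (n / ((A.card : ℝ) - 4)) ^ 3 *
          deg E vs w (A \ vs f) v - eps ((A.card : ℝ) - 4))) else 0) +
        ∑ σ ∈ St, w f * Real.exp (l * (n / ((A.card : ℝ) - 4) *
          ((σ ∩ (A \ vs f)).card : ℝ) / N - 1 - eps ((A.card : ℝ) - 4))) := by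
      intro f hf
      unfold Phi
      rw [hcard f hf, ← Finset.sum_filter, ← Finset.sum_filter]
      have hAf : A.filter (fun v => v ∉ vs f) = A \ vs f := by
        ext x; simp
      rw [hAf, mul_add, Finset.mul_sum, Finset.mul_sum, Finset.sum_congr rfl (fun x _ => mul_add _ _ _),
        Finset.sum_add_distrib]
    rw [Finset.sum_congr rfl hrw, Finset.sum_add_distrib, Finset.sum_add_distrib]
    rw [Finset.sum_comm (s := al E vs A) (t := A), Finset.sum_comm (s := al E vs A) (t := A),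
      Finset.sum_comm (s := al E vs A) (t := St)]
    have hup : ∀ v ∈ A, (∑ f ∈ al E vs A, if v ∉ vs f then w f * Real.exp (l *
        ((n / ((A.card : ℝ) - 4)) ^ 3 * deg E vs w (A \ vs f) v - 1 -
          eps ((A.card : ℝ) - 4))) else 0) ≤
        tot E vs w A * (Real.exp (l * ((n / (A.card : ℝ)) ^ 3 * deg E vs w A v - 1 -
          eps (A.card : ℝ))) * K) := by
      intro v hv
      rw [← Finset.sum_filter]
      exact up_step H A C hX _ hg v hv
    have hlow : ∀ v ∈ A, (∑ f ∈ al E vs A, if v ∉ vs f then w f * Real.exp (l *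
        (1 - (n / ((A.card : ℝ) - 4)) ^ 3 * deg E vs w (A \ vs f) v -
          eps ((A.card : ℝ) - 4))) else 0) ≤
        tot E vs w A * (Real.exp (l * (1 - (n / (A.card : ℝ)) ^ 3 * deg E vs w A v -
          eps (A.card : ℝ))) * K) := by
      intro v hv
      rw [← Finset.sum_filter]
      exact low_step H A C hX _ hg v hv
    have hst : ∀ σ ∈ St, (∑ f ∈ al E vs A, w f * Real.exp (l * (n / ((A.card : ℝ) - 4) *
          ((σ ∩ (A \ vs f)).card : ℝ) / N - 1 - eps ((A.card : ℝ) - 4)))) ≤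
        tot E vs w A * (Real.exp (l * (n / (A.card : ℝ) * ((σ ∩ A).card : ℝ) / N - 1 -
          eps (A.card : ℝ))) * K) := by
      intro σ hσ
      exact star_step H A C hX _ hg σ (hSt σ hσ) (hYs σ hσ)
    refine le_trans (add_le_add (add_le_add (Finset.sum_le_sum hup) (Finset.sum_le_sum hlow))
      (Finset.sum_le_sum hst)) (le_of_eq ?_)
    unfold Phi
    rw [← Finset.mul_sum, ← Finset.mul_sum, ← Finset.mul_sum, ← Finset.sum_mul, ← Finset.sum_mul,
      ← Finset.sum_mul, Finset.sum_add_distrib]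
    ring
  have heq : ∑ f ∈ al E vs A, w f * (Phi N n l eps E vs w St A * K) =
      tot E vs w A * (Phi N n l eps E vs w St A * K) := by
    unfold tot
    rw [Finset.sum_mul]
  linarith

end H69NB
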