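import Pool.Agent.H69.NB.Comb
import Pool.Agent.H69.NB.Dbl
import Pool.Agent.H69.NB.ExpAvg

namespace H69NB

open Finset

variable {V ι : Type*} [DecidableEq V] [DecidableEq ι]

/-- the scaling factors before and after one step -/
theorem up_par (n a : ℝ) (ha : 100 ≤ a) (hn : a ≤ n) :
    0 < (n / a) ^ 3 ∧ (n / a) ^ 3 ≤ (n / (a - 4)) ^ 3 ∧
      (n / (a - 4)) ^ 3 ≤ (n / a) ^ 3 * (1 + 14 / a) ∧
      (n / (a - 4)) ^ 3 - (n / a) ^ 3 ≤ 12 / a * (n / (a - 4)) ^ 3 := by
  have ha0 : 0 < a := by linarith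
  have hn0 : 0 < n := by linarith
  have ha4 : 0 < a - 4 := by linarith
  have h3 : 0 < a ^ 3 := by positivity
  have h43 : 0 < (a - 4) ^ 3 := by positivity
  refine ⟨by positivity, ?_, ?_, ?_⟩
  · gcongr
    linarith
  · rw [div_pow, div_pow, div_le_iff₀ h43]
    have : n ^ 3 / a ^ 3 * (1 + 14 / a) * (a - 4) ^ 3 =
        n ^ 3 * (((a + 14) * (a - 4) ^ 3) / a ^ 4) := by
      field_simp
    rw [this]
    have h1 : 1 ≤ ((a + 14) * (a - 4) ^ 3) / a ^ 4 := by
      rw [one_le_div (by positivity)]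
      nlinarith [mul_nonneg (mul_nonneg ha0.le ha0.le) (by linarith : (0 : ℝ) ≤ a - 100)]
    have : 0 < n ^ 3 := by positivity
    nlinarith
  · have h1 : (n / a) ^ 3 = (n / (a - 4)) ^ 3 * ((a - 4) ^ 3 / a ^ 3) := by
      rw [div_pow, div_pow]
      field_simp
    have h2 : 1 - 12 / a ≤ (a - 4) ^ 3 / a ^ 3 := by
      rw [le_div_iff₀ h3]
      have : (1 - 12 / a) * a ^ 3 = a ^ 3 - 12 * a ^ 2 := by
        field_simp
      rw [this]
      nlinarith
    have h4 : 0 < (n / (a - 4)) ^ 3 := by positivity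
    rw [h1]
    nlinarith

theorem up_step {N n l ε : ℝ} {E : Finset ι} {vs : ι → Finset V} {w : ι → ℝ} (H : Hyp N E vs w)
    (A : Finset V) (C : Cond N n l ε (A.card : ℝ))
    (hX : ∀ u ∈ A, |(n / (A.card : ℝ)) ^ 3 * deg E vs w A u - 1| ≤ 2 * ε)
    (ε' : ℝ) (hε' : ε + 200 * ε / (A.card : ℝ) ≤ ε') (v : V) (hv : v ∈ A) :
    ∑ f ∈ aln E vs A v, w f * Real.exp (l * ((n / ((A.card : ℝ) - 4)) ^ 3 *
        deg E vs w (A \ vs f) v - 1 - ε')) ≤
      tot E vs w A * (Real.exp (l * ((n / (A.card : ℝ)) ^ 3 * deg E vs w A v - 1 - ε)) *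
        Real.exp (l ^ 2 * QQ N n (A.card : ℝ))) := by
  obtain ⟨hs0, hss, hs1, hs2⟩ := up_par n (A.card : ℝ) C.ha C.hn
  have hl := C.hl
  have hl1 := C.hl1
  have h48 := C.h48
  have hε := C.hε
  have hε8 := C.hε8
  have hN := C.hN
  have ha := C.ha
  have hfour := four_tot H A
  have hdv := deg_nonneg H A v
  have hQ : QQ N n (A.card : ℝ) =
    (648 / (A.card : ℝ) + 5760 * (n / ((A.card : ℝ) - 4)) ^ 3 / N) / (A.card : ℝ) := rfl
  rw [hQ]
  set s : ℝ := (n / (A.card : ℝ)) ^ 3 with hs
  set s' : ℝ := (n / ((A.card : ℝ) - 4)) ^ 3 with hs'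
  have hcast : ∑ u ∈ A, (1 : ℝ) = (A.card : ℝ) := by simp
  set a : ℝ := (A.card : ℝ) with haa
  set D : ℝ := deg E vs w A v with hD
  set T : ℝ := tot E vs w A with hT
  have ha0 : 0 < a := by linarith
  have hs'0 : 0 < s' := lt_of_lt_of_le hs0 hss
  -- bounds for the degrees
  have hup : ∀ u ∈ A, s * deg E vs w A u ≤ 1 + 2 * ε := by
    intro u hu
    have := (abs_le.1 (hX u hu)).2
    linarith
  have hlo : ∀ u ∈ A, 1 - 2 * ε ≤ s * deg E vs w A u := by
    intro u hu
    have := (abs_le.1 (hX u hu)).1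
    linarith
  have hTup : 4 * (s * T) ≤ a * (1 + 2 * ε) := by
    have : 4 * (s * T) = ∑ u ∈ A, s * deg E vs w A u := by
      rw [← Finset.mul_sum, ← hfour]; ring
    rw [this]
    calc ∑ u ∈ A, s * deg E vs w A u ≤ ∑ u ∈ A, (1 + 2 * ε) := Finset.sum_le_sum hup
      _ = a * (1 + 2 * ε) := by rw [Finset.sum_const, nsmul_eq_mul]
  have hTlo : a * (1 - 2 * ε) ≤ 4 * (s * T) := by
    have : 4 * (s * T) = ∑ u ∈ A, s * deg E vs w A u := by
      rw [← Finset.mul_sum, ← hfour]; ring
    rw [this]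
    calc a * (1 - 2 * ε) = ∑ u ∈ A, (1 - 2 * ε) := by rw [Finset.sum_const, nsmul_eq_mul]
      _ ≤ ∑ u ∈ A, s * deg E vs w A u := Finset.sum_le_sum hlo
  have hsT : 3 * a / 16 ≤ s * T := by nlinarith
  have hT0 : 0 < T := by
    have h1 : 0 < s * T := by
      have : 0 < 3 * a / 16 := by positivity
      linarith
    exact (mul_pos_iff_of_pos_left hs0).1 h1
  have hDup : s * D ≤ 5 / 4 := by
    have := hup v hv
    linarith
  have ha14 : 14 / a ≤ 14 / 100 := by gcongr
  have hs'D : s' * D ≤ 3 / 2 := by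
    calc s' * D ≤ (s * (1 + 14 / a)) * D := mul_le_mul_of_nonneg_right hs1 hdv
      _ = (s * D) * (1 + 14 / a) := by ring
      _ ≤ (5 / 4) * (1 + 14 / 100) := by
        apply mul_le_mul hDup (by linarith) (by positivity) (by norm_num)
      _ ≤ 3 / 2 := by norm_num
  have hs'D0 : 0 ≤ s' * D := mul_nonneg hs'0.le hdv
  have hx : (s' - s) * D ≤ 18 / a := by
    calc (s' - s) * D ≤ (s * (14 / a)) * D := by
          apply mul_le_mul_of_nonneg_right _ hdv
          linarith
      _ = (s * D) * (14 / a) := by ring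
      _ ≤ (5 / 4) * (14 / a) := mul_le_mul_of_nonneg_right hDup (by positivity)
      _ ≤ 18 / a := by
        rw [show (5 / 4 : ℝ) * (14 / a) = 17.5 / a by ring]
        gcongr
        norm_num
  have hx0 : 0 ≤ (s' - s) * D := mul_nonneg (by linarith) hdv
  have hsinv : 1 / s ≤ 16 * T / (3 * a) := by
    rw [div_le_div_iff₀ hs0 (by positivity)]
    nlinarith
  -- membership
  have hmem : ∀ f ∈ aln E vs A v, f ∈ E ∧ v ∉ vs f := by
    intro f hf
    unfold aln al at hf
    simp only [mem_filter] at hf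
    exact ⟨hf.1.1, hf.2⟩
  have hw : ∀ f ∈ aln E vs A v, 0 ≤ w f := fun f hf => H.w0 f (hmem f hf).1
  set y : ι → ℝ := fun f => s' * bb E vs w A f v with hy
  have hy0 : ∀ f, 0 ≤ y f := fun f => mul_nonneg hs'0.le (bb_nonneg H A f v)
  have hy1 : ∀ f ∈ aln E vs A v, y f ≤ 96 * s' / N := by
    intro f hf
    have h1 := bb_le H A f (hmem f hf).1 v (hmem f hf).2
    calc y f ≤ s' * (96 / N) := mul_le_mul_of_nonneg_left h1 hs'0.le
      _ = 96 * s' / N := by ring
  -- the sums of `y`
  have hge := sum_bb_ge H A v ((1 - 2 * ε) / s) (fun u hu => by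
    rw [div_le_iff₀ hs0]
    have := hlo u hu
    linarith)
  have hle := sum_bb_le H A v ((1 + 2 * ε) / s) (fun u hu => by
    rw [le_div_iff₀ hs0]
    have := hup u hu
    linarith)
  have hsumy : ∑ f ∈ aln E vs A v, w f * y f =
      s' * ∑ f ∈ aln E vs A v, w f * bb E vs w A f v := by
    rw [Finset.mul_sum]
    refine Finset.sum_congr rfl fun f _ => ?_
    simp only [hy]
    ring
  have hygE : s' * D * (3 * ((1 - 2 * ε) / s) - 144 / N) ≤ ∑ f ∈ aln E vs A v, w f * y f := by
    rw [hsumy, mul_assoc]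
    exact mul_le_mul_of_nonneg_left hge hs'0.le
  have hylE : ∑ f ∈ aln E vs A v, w f * y f ≤ s' * D * (3 * ((1 + 2 * ε) / s)) := by
    rw [hsumy, mul_assoc]
    exact mul_le_mul_of_nonneg_left hle hs'0.le
  have hylE2 : ∑ f ∈ aln E vs A v, w f * y f ≤ (45 / 8) * (16 * T / (3 * a)) := by
    refine hylE.trans ?_
    calc s' * D * (3 * ((1 + 2 * ε) / s)) = (s' * D) * (3 * (1 + 2 * ε)) * (1 / s) := by ring
      _ ≤ (3 / 2) * (3 * (5 / 4)) * (16 * T / (3 * a)) := by
        apply mul_le_mul _ hsinv (by positivity) (by norm_num)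
        apply mul_le_mul hs'D (by linarith) (by positivity) (by norm_num)
      _ = (45 / 8) * (16 * T / (3 * a)) := by ring
  have hsumw : ∑ f ∈ aln E vs A v, w f = T - D := sum_aln A v
  -- the average
  have hmain := exp_avg (aln E vs A v) w (fun f => (s' - s) * D - y f) T l (ε' - ε)
    ((648 / a + 5760 * s' / N) / a) hw hT0.le hl.le ?_ (by rw [hsumw]; linarith) ?_ ?_
  · have hterm : ∀ f ∈ aln E vs A v, w f * Real.exp (l * (s' * deg E vs w (A \ vs f) v - 1 - ε')) =
        (w f * Real.exp (l * ((s' - s) * D - y f))) * Real.exp (l * (s * D - 1 - ε')) := by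
      intro f hf
      rw [mul_assoc, ← Real.exp_add, deg_step H A f v (hmem f hf).2]
      congr 2
      simp only [hy]
      ring
    rw [Finset.sum_congr rfl hterm, ← Finset.sum_mul]
    calc (∑ f ∈ aln E vs A v, w f * Real.exp (l * ((s' - s) * D - y f))) *
          Real.exp (l * (s * D - 1 - ε')) ≤
        (T * Real.exp (l * (ε' - ε) + l ^ 2 * ((648 / a + 5760 * s' / N) / a))) *
          Real.exp (l * (s * D - 1 - ε')) :=
          mul_le_mul_of_nonneg_right hmain (Real.exp_pos _).le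
      _ = T * (Real.exp (l * (s * D - 1 - ε)) *
          Real.exp (l ^ 2 * ((648 / a + 5760 * s' / N) / a))) := by
        rw [mul_assoc, ← Real.exp_add, ← Real.exp_add]
        congr 2
        ring
  · intro f hf
    have h1 := hy0 f
    have h2 := hy1 f hf
    rw [abs_mul, abs_of_pos hl]
    refine le_trans (mul_le_mul_of_nonneg_left ?_ hl.le) hl1
    rw [abs_le]
    constructor <;> linarith
  · have h1 : ∑ f ∈ aln E vs A v, w f * ((s' - s) * D - y f) =
        (s' - s) * D * (T - D) - ∑ f ∈ aln E vs A v, w f * y f := by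
      rw [← hsumw, Finset.mul_sum, ← Finset.sum_sub_distrib]
      refine Finset.sum_congr rfl fun f _ => ?_
      ring
    rw [h1]
    have h2 : (s' - s) * D * (T - D) ≤ 12 / a * (s' * D) * T := by
      calc (s' - s) * D * (T - D) ≤ (s' - s) * D * T :=
            mul_le_mul_of_nonneg_left (by linarith) hx0
        _ = (s' - s) * (D * T) := by ring
        _ ≤ (12 / a * s') * (D * T) :=
            mul_le_mul_of_nonneg_right hs2 (mul_nonneg hdv hT0.le)
        _ = _ := by ring
    have h3 : 12 / a * T ≤ 3 * ((1 + 2 * ε) / s) := by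
      rw [show (12 / a * T : ℝ) = (3 * (4 * T)) / a by ring,
        show (3 * ((1 + 2 * ε) / s) : ℝ) = (3 * (1 + 2 * ε)) / s by ring,
        div_le_div_iff₀ ha0 hs0]
      nlinarith
    have h4 : (s' - s) * D * (T - D) - ∑ f ∈ aln E vs A v, w f * y f ≤
        s' * D * (12 * ε / s + 144 / N) := by
      calc _ ≤ 12 / a * (s' * D) * T - s' * D * (3 * ((1 - 2 * ε) / s) - 144 / N) := by linarith
        _ = s' * D * (12 / a * T - (3 * ((1 - 2 * ε) / s) - 144 / N)) := by ring
        _ ≤ s' * D * (3 * ((1 + 2 * ε) / s) - (3 * ((1 - 2 * ε) / s) - 144 / N)) := by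
          apply mul_le_mul_of_nonneg_left _ hs'D0
          linarith
        _ = _ := by ring
    have h5 : 144 / N ≤ 3 * ε * (1 / s) := by
      have h6 : 48 * s / N * (3 * (1 / s)) ≤ ε * (3 * (1 / s)) :=
        mul_le_mul_of_nonneg_right h48 (by positivity)
      have h7 : 48 * s / N * (3 * (1 / s)) = 144 / N := by
        field_simp
        norm_num
      linarith
    have h6 : s' * D * (12 * ε / s + 144 / N) ≤ T * (200 * ε / a) := by
      calc s' * D * (12 * ε / s + 144 / N) ≤ (3 / 2) * (12 * ε * (1 / s) + 3 * ε * (1 / s)) := by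
            apply mul_le_mul hs'D _ (by positivity) (by norm_num)
            rw [show 12 * ε / s = 12 * ε * (1 / s) by ring]
            linarith
        _ = (45 / 2 * ε) * (1 / s) := by ring
        _ ≤ (45 / 2 * ε) * (16 * T / (3 * a)) :=
            mul_le_mul_of_nonneg_left hsinv (by positivity)
        _ = T * (120 * ε / a) := by ring
        _ ≤ T * (200 * ε / a) := by
            apply mul_le_mul_of_nonneg_left _ hT0.le
            gcongr
            norm_num
    calc _ ≤ T * (200 * ε / a) := h4.trans h6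
      _ ≤ T * (ε' - ε) := mul_le_mul_of_nonneg_left (by linarith) hT0.le
  · have h1 : ∀ f ∈ aln E vs A v, w f * ((s' - s) * D - y f) ^ 2 ≤
        (324 / a ^ 2) * w f + (96 * s' / N) * (w f * y f) := by
      intro f hf
      have h2 := hy0 f
      have h3 := hy1 f hf
      have h4 := hw f hf
      have h5 : ((s' - s) * D - y f) ^ 2 ≤ 324 / a ^ 2 + (96 * s' / N) * y f := by
        have h6 : ((s' - s) * D) ^ 2 ≤ (18 / a) ^ 2 := pow_le_pow_left₀ hx0 hx 2
        have h7 : (18 / a) ^ 2 = 324 / a ^ 2 := by ring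
        have h8 : (y f) ^ 2 ≤ (96 * s' / N) * y f := by
          rw [sq]
          exact mul_le_mul_of_nonneg_right h3 h2
        nlinarith [mul_nonneg hx0 h2]
      calc w f * ((s' - s) * D - y f) ^ 2 ≤ w f * (324 / a ^ 2 + (96 * s' / N) * y f) :=
            mul_le_mul_of_nonneg_left h5 h4
        _ = _ := by ring
    calc ∑ f ∈ aln E vs A v, w f * ((s' - s) * D - y f) ^ 2 ≤
        ∑ f ∈ aln E vs A v, ((324 / a ^ 2) * w f + (96 * s' / N) * (w f * y f)) :=
          Finset.sum_le_sum h1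
      _ = (324 / a ^ 2) * (T - D) + (96 * s' / N) * ∑ f ∈ aln E vs A v, w f * y f := by
          rw [Finset.sum_add_distrib, ← Finset.mul_sum, ← Finset.mul_sum, hsumw]
      _ ≤ (648 / a ^ 2) * T + (96 * s' / N) * ((45 / 8) * (16 * T / (3 * a))) := by
          apply add_le_add
          · apply mul_le_mul _ (by linarith) _ (by positivity)
            · gcongr
              norm_num
            · rw [← hsumw]
              exact Finset.sum_nonneg hw
          · exact mul_le_mul_of_nonneg_left hylE2 (by positivity)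
      _ ≤ T * ((648 / a + 5760 * s' / N) / a) := by
          have h9 : T * ((648 / a + 5760 * s' / N) / a) =
            (648 / a ^ 2) * T + 5760 * (s' / N * (T / a)) := by ring
          have h10 : (96 * s' / N) * ((45 / 8) * (16 * T / (3 * a))) =
            2880 * (s' / N * (T / a)) := by ring
          rw [h9, h10]
          have h11 : 0 ≤ s' / N * (T / a) := by positivity
          linarith

end H69NB
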